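import Mathlib

set_option autoImplicit false

namespace Pool.Agent.H570R2.SP

open Finset

theorem popular {α Z : Type} [DecidableEq α] [DecidableEq Z] (Rs : Finset α)
    (c : Z → α → α → ℕ) (W K J R : ℕ) (L1 L2 : α → Finset Z) (P : Finset (α × α))
    (hP : P ⊆ Rs ×ˢ Rs) (hc : ∀ z r r', c z r r' ≤ W)
    (hL1 : ∑ r ∈ Rs, (L1 r).card ≤ K * R) (hL2 : ∑ r ∈ Rs, (L2 r).card ≤ K * R)
    (hR : Rs.card = R) (hR0 : 0 < R) (hK0 : 0 < K) (hJ0 : 0 < J) (hW0 : 0 < W)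
    (hgood : R * R * W ≤ J * ∑ p ∈ P, ∑ z ∈ L1 p.1 ∩ L2 p.2, c z p.1 p.2) :
    ∃ z, (∃ p ∈ P, z ∈ L1 p.1 ∩ L2 p.2) ∧
      R * R * W ≤ 4 * K ^ 2 * J ^ 2 * ∑ r ∈ Rs, ∑ r' ∈ Rs, c z r r' := by
  let d2 : Z → ℕ := fun z => (Rs.filter (fun r => z ∈ L2 r)).card
  set Pop : Finset Z := (Rs.biUnion L2).filter (fun z => R ≤ 2 * K * J * d2 z) with hPop
  have hunpop : ∀ z, z ∉ Pop → 2 * K * J * d2 z ≤ R := by
    intro z hz
    by_contra hcon
    rw [not_le] at hcon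
    apply hz
    rw [hPop, mem_filter, mem_biUnion]
    refine ⟨?_, hcon.le⟩
    have h1 : d2 z ≠ 0 := by
      intro h0; rw [h0] at hcon; simp at hcon
    obtain ⟨r, hr⟩ := card_pos.1 (Nat.pos_of_ne_zero h1)
    rw [mem_filter] at hr
    exact ⟨r, hr.1, hr.2⟩
  -- splitting
  have hsplit : ∑ p ∈ P, ∑ z ∈ L1 p.1 ∩ L2 p.2, c z p.1 p.2 =
      (∑ p ∈ P, ∑ z ∈ (L1 p.1 ∩ L2 p.2).filter (fun z => z ∈ Pop), c z p.1 p.2) +
      ∑ p ∈ P, ∑ z ∈ (L1 p.1 ∩ L2 p.2).filter (fun z => z ∉ Pop), c z p.1 p.2 := by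
    rw [← sum_add_distrib]
    apply sum_congr rfl
    intro p _
    rw [sum_filter_add_sum_filter_not]
  -- unpopular part
  have hun : 2 * J * ∑ p ∈ P, ∑ z ∈ (L1 p.1 ∩ L2 p.2).filter (fun z => z ∉ Pop), c z p.1 p.2 ≤
      R * R * W := by
    have h1 : ∑ p ∈ P, ∑ z ∈ (L1 p.1 ∩ L2 p.2).filter (fun z => z ∉ Pop), c z p.1 p.2 ≤
        ∑ p ∈ Rs ×ˢ Rs, ∑ z ∈ (L1 p.1).filter (fun z => z ∉ Pop), if z ∈ L2 p.2 then W else 0 := by
      refine (sum_le_sum_of_subset hP).trans ?_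
      apply sum_le_sum
      intro p _
      have : (L1 p.1 ∩ L2 p.2).filter (fun z => z ∉ Pop) =
          ((L1 p.1).filter (fun z => z ∉ Pop)).filter (fun z => z ∈ L2 p.2) := by
        ext z; simp only [mem_filter, mem_inter]; tauto
      rw [this, ← sum_filter]
      exact sum_le_sum (fun z _ => hc z _ _)
    have h2 : ∑ p ∈ Rs ×ˢ Rs, ∑ z ∈ (L1 p.1).filter (fun z => z ∉ Pop),
        (if z ∈ L2 p.2 then W else 0) =
        ∑ r ∈ Rs, ∑ z ∈ (L1 r).filter (fun z => z ∉ Pop), d2 z * W := by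
      rw [sum_product]
      apply sum_congr rfl
      intro r _
      show (∑ y ∈ Rs, ∑ z ∈ (L1 r).filter (fun z => z ∉ Pop), if z ∈ L2 y then W else 0) = _
      rw [sum_comm]
      apply sum_congr rfl
      intro z _
      rw [← sum_filter, sum_const, smul_eq_mul]
    have h3 : 2 * K * J * ∑ r ∈ Rs, ∑ z ∈ (L1 r).filter (fun z => z ∉ Pop), d2 z * W ≤
        K * R * R * W := by
      rw [mul_sum]
      have h4 : ∀ r ∈ Rs, 2 * K * J * ∑ z ∈ (L1 r).filter (fun z => z ∉ Pop), d2 z * W ≤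
          (L1 r).card * (R * W) := by
        intro r _
        rw [mul_sum]
        have h5 : ∀ z ∈ (L1 r).filter (fun z => z ∉ Pop), 2 * K * J * (d2 z * W) ≤ R * W := by
          intro z hz
          rw [mem_filter] at hz
          rw [← mul_assoc]
          exact Nat.mul_le_mul_right _ (hunpop z hz.2)
        refine (sum_le_sum h5).trans ?_
        rw [sum_const, smul_eq_mul]
        exact Nat.mul_le_mul_right _ (card_filter_le _ _)
      refine (sum_le_sum h4).trans ?_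
      rw [← sum_mul]
      calc (∑ r ∈ Rs, (L1 r).card) * (R * W) ≤ (K * R) * (R * W) := Nat.mul_le_mul_right _ hL1
        _ = _ := by ring
    generalize (∑ p ∈ P, ∑ z ∈ (L1 p.1 ∩ L2 p.2).filter (fun z => z ∉ Pop), c z p.1 p.2) = U
      at h1 ⊢
    have h6 : K * (2 * J * U) ≤ K * (R * R * W) := by
      calc K * (2 * J * U) = 2 * K * J * U := by ring
        _ ≤ 2 * K * J * ∑ r ∈ Rs, ∑ z ∈ (L1 r).filter (fun z => z ∉ Pop), d2 z * W :=
          Nat.mul_le_mul_left _ (h1.trans h2.le)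
        _ ≤ K * R * R * W := h3
        _ = _ := by ring
    exact Nat.le_of_mul_le_mul_left h6 hK0
  -- popular part
  let Γ : Z → ℕ := fun z => ∑ p ∈ P.filter (fun p => z ∈ L1 p.1 ∩ L2 p.2), c z p.1 p.2
  have hpop : ∑ p ∈ P, ∑ z ∈ (L1 p.1 ∩ L2 p.2).filter (fun z => z ∈ Pop), c z p.1 p.2 =
      ∑ z ∈ Pop, Γ z := by
    have h1 : ∀ p ∈ P, ∑ z ∈ (L1 p.1 ∩ L2 p.2).filter (fun z => z ∈ Pop), c z p.1 p.2 =
        ∑ z ∈ Pop, if z ∈ L1 p.1 ∩ L2 p.2 then c z p.1 p.2 else 0 := by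
      intro p _
      rw [← sum_filter]
      apply sum_congr _ (fun _ _ => rfl)
      ext z; simp only [mem_filter]; tauto
    rw [sum_congr rfl h1, sum_comm]
    apply sum_congr rfl
    intro z _
    rw [← sum_filter]
  have hpopcard : Pop.card ≤ 2 * K ^ 2 * J := by
    have h1 : ∑ z ∈ Pop, R ≤ ∑ z ∈ Pop, 2 * K * J * d2 z := by
      apply sum_le_sum
      intro z hz
      rw [hPop, mem_filter] at hz
      exact hz.2
    have h2 : ∑ z ∈ Pop, d2 z ≤ ∑ r ∈ Rs, (L2 r).card := by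
      have h3 : ∀ z ∈ Pop, d2 z = ∑ r ∈ Rs, if z ∈ L2 r then 1 else 0 := by
        intro z _
        rw [← card_filter]
      rw [sum_congr rfl h3, sum_comm]
      apply sum_le_sum
      intro r _
      rw [← card_filter]
      apply card_le_card
      intro z hz
      exact (mem_filter.1 hz).2
    rw [sum_const, smul_eq_mul, ← mul_sum] at h1
    have h4 : Pop.card * R ≤ (2 * K ^ 2 * J) * R := by
      calc Pop.card * R ≤ 2 * K * J * ∑ z ∈ Pop, d2 z := h1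
        _ ≤ 2 * K * J * (K * R) := Nat.mul_le_mul_left _ (h2.trans hL2)
        _ = _ := by ring
    exact Nat.le_of_mul_le_mul_right h4 hR0
  have hmain : R * R * W ≤ 2 * J * ∑ z ∈ Pop, Γ z := by
    rw [hsplit, hpop] at hgood
    generalize (∑ p ∈ P, ∑ z ∈ (L1 p.1 ∩ L2 p.2).filter (fun z => z ∉ Pop), c z p.1 p.2) = U
      at hun hgood
    have : 2 * (R * R * W) ≤ 2 * J * ∑ z ∈ Pop, Γ z + R * R * W := by
      calc 2 * (R * R * W) ≤ 2 * (J * (∑ z ∈ Pop, Γ z + U)) := Nat.mul_le_mul_left _ hgood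
        _ = 2 * J * ∑ z ∈ Pop, Γ z + 2 * J * U := by ring
        _ ≤ _ := Nat.add_le_add_left hun _
    omega
  have hRW : 0 < R * R * W := by positivity
  have hex : ∃ z ∈ Pop, R * R * W ≤ 4 * K ^ 2 * J ^ 2 * Γ z := by
    by_contra hno
    push Not at hno
    have hne : Pop.Nonempty := by
      rw [nonempty_iff_ne_empty]
      intro he
      rw [he] at hmain
      simp at hmain
      rcases hmain with h | h <;> omega
    have h1 : ∑ z ∈ Pop, 4 * K ^ 2 * J ^ 2 * Γ z < ∑ z ∈ Pop, R * R * W :=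
      sum_lt_sum_of_nonempty hne hno
    rw [← mul_sum, sum_const, smul_eq_mul] at h1
    have h2 : 2 * K ^ 2 * J * (R * R * W) ≤ 4 * K ^ 2 * J ^ 2 * ∑ z ∈ Pop, Γ z := by
      calc 2 * K ^ 2 * J * (R * R * W) ≤ 2 * K ^ 2 * J * (2 * J * ∑ z ∈ Pop, Γ z) :=
            Nat.mul_le_mul_left _ hmain
        _ = _ := by ring
    have h3 : Pop.card * (R * R * W) ≤ 2 * K ^ 2 * J * (R * R * W) :=
      Nat.mul_le_mul_right _ hpopcard
    omega
  obtain ⟨z, _, hz⟩ := hex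
  refine ⟨z, ?_, ?_⟩
  · have h1 : Γ z ≠ 0 := by
      intro h0
      rw [h0] at hz
      omega
    have h2 : (P.filter (fun p => z ∈ L1 p.1 ∩ L2 p.2)).Nonempty := by
      rw [nonempty_iff_ne_empty]
      intro he
      apply h1
      simp only [Γ]
      rw [he, sum_empty]
    obtain ⟨p, hp⟩ := h2
    rw [mem_filter] at hp
    exact ⟨p, hp.1, hp.2⟩
  · refine hz.trans (Nat.mul_le_mul_left _ ?_)
    calc Γ z ≤ ∑ p ∈ Rs ×ˢ Rs, c z p.1 p.2 :=
          sum_le_sum_of_subset ((filter_subset _ _).trans hP)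
      _ = _ := sum_product _ _ _

end Pool.Agent.H570R2.SP
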