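import Mathlib

set_option autoImplicit false

/-! Definitions used in the statement about the search-to-profile reduction. -/

namespace Pool.Agent.H570R2.SP

/-- `U` is an optimal plain decompressor: it is partial recursive and every partial recursive
decompressor `V` is simulated by `U` with a constant overhead in the length of programs. -/
def OptimalDecompressor (U : List Bool →. List Bool) : Prop :=
  Partrec U ∧ ∀ V : List Bool →. List Bool, Partrec V →
    ∃ c : ℕ, ∀ p x : List Bool, x ∈ V p → ∃ q : List Bool, x ∈ U q ∧ q.length ≤ p.length + c

/-- Plain Kolmogorov complexity of a string with respect to the decompressor `U`. -/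
noncomputable def plainC (U : List Bool →. List Bool) (x : List Bool) : ℕ :=
  sInf {m : ℕ | ∃ p : List Bool, x ∈ U p ∧ p.length = m}

/-- The complexity profile of a tuple of strings: the complexities of all its subtuples, listed in
the fixed order of `List.sublists` (which depends only on the length of the tuple). A tuple is
turned into a string by `enc`. -/
noncomputable def profile (U : List Bool →. List Bool) (enc : List (List Bool) → List Bool)
    (zs : List (List Bool)) : List ℕ :=
  zs.sublists.map (fun l => plainC U (enc l))

/-- Two profiles have the same length and differ by at most `m` in every coordinate. -/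
def Close (m : ℕ) (v v' : List ℕ) : Prop :=
  List.Forall₂ (fun a b => a ≤ b + m ∧ b ≤ a + m) v v'

/-- The total length of a tuple of strings. -/
def totalLen (zs : List (List Bool)) : ℕ := (zs.map List.length).sum

/-- The success probability of the randomised algorithm `A`, which uses `r n` random bits, on the
input given by `xs` and the profile of `xs ++ ys`; `n` is the total length of `xs ++ ys`. The
output is a tuple `ys'`, and success means that the profile of `xs ++ ys'` is within `c * log n` of
the profile of `xs ++ ys` in every coordinate. -/
noncomputable def successProb (U : List Bool →. List Bool) (enc : List (List Bool) → List Bool)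
    (A : ℕ × List ℕ × List (List Bool) × List Bool → List (List Bool)) (r : ℕ → ℕ) (c : ℕ)
    (xs ys : List (List Bool)) : ℝ :=
  (Set.ncard {ρ : List Bool | ρ.length = r (totalLen (xs ++ ys)) ∧
    Close (c * Nat.log 2 (totalLen (xs ++ ys)))
      (profile U enc (xs ++ A (totalLen (xs ++ ys), profile U enc (xs ++ ys), xs, ρ)))
      (profile U enc (xs ++ ys))} : ℝ) / 2 ^ r (totalLen (xs ++ ys))

end Pool.Agent.H570R2.SP
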