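import Mathlib
import Pool.Agent.Helper760.Kolm

set_option autoImplicit false

namespace Pool.Agent.H570R2.SP

open Encodable
open Pool.Agent.Helper760.Kolm

/-- tuples of strings -/
abbrev Tup := List (List Bool)

/-- outputs on all pairs of strings of length `2 * 2 ^ j` -/
def full (g : ℕ × List ℕ × Tup → List Tup) (j : ℕ) (v : List ℕ) : List Tup :=
  (allLen (2 * 2 ^ j)).flatMap fun u => (allLen (2 * 2 ^ j)).flatMap fun w =>
    g (5 * 2 ^ j, v, [u, w])

/-- a table used as a function on strings -/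
def look (L : Tup) (p : List Bool) : List Bool := L.getD (val p) []

/-- outputs on the block `y` -/
def blk (g : ℕ × List ℕ × Tup → List Tup) (T : Tup × Tup) (j : ℕ) (v : List ℕ) (y : List Bool) :
    List Tup :=
  (allLen (2 ^ j)).flatMap fun r₁ => (allLen (2 ^ j)).flatMap fun r₂ =>
    g (5 * 2 ^ j, v, [look T.1 (y ++ r₁), look T.2 (y ++ r₂)])

def Heavy (g : ℕ × List ℕ × Tup → List Tup) (h j : ℕ) (v : List ℕ) (z : Tup) : Prop :=
  (full g j v).length ≤ 2 ^ (h * (j + 2)) * (full g j v).count z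

instance (g : ℕ × List ℕ × Tup → List Tup) (h j : ℕ) (v : List ℕ) (z : Tup) :
    Decidable (Heavy g h j v z) := by unfold Heavy; infer_instance

def Bad (g : ℕ × List ℕ × Tup → List Tup) (h : ℕ) (T : Tup × Tup) (j : ℕ) (v : List ℕ)
    (y : List Bool) : Prop :=
  ∃ z ∈ blk g T j v y, 2 * (blk g T j v y).length < 2 ^ (h * (j + 2)) * (blk g T j v y).count z ∧
    ¬ Heavy g h j v z

instance (g : ℕ × List ℕ × Tup → List Tup) (h : ℕ) (T : Tup × Tup) (j : ℕ) (v : List ℕ)
    (y : List Bool) : Decidable (Bad g h T j v y) := by unfold Bad; infer_instance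

/-- the `i`-th list of numbers -/
def vl (i : ℕ) : List ℕ := Denumerable.ofNat (List ℕ) i

def Inj (L : Tup) (j : ℕ) : Prop :=
  ∀ p ∈ allLen (2 * 2 ^ j), (look L p).length = 2 * 2 ^ j ∧
    ∀ q ∈ allLen (2 * 2 ^ j), look L p = look L q → p = q

instance (L : Tup) (j : ℕ) : Decidable (Inj L j) := by unfold Inj; infer_instance

def BadY (g : ℕ × List ℕ × Tup → List Tup) (h e : ℕ) (T : Tup × Tup) (j : ℕ)
    (y : List Bool) : Prop := ∃ i ∈ List.range (2 ^ (e * (j + 2))), Bad g h T j (vl i) y

instance (g : ℕ × List ℕ × Tup → List Tup) (h e : ℕ) (T : Tup × Tup) (j : ℕ)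
    (y : List Bool) : Decidable (BadY g h e T j y) := by unfold BadY; infer_instance

def Good (g : ℕ × List ℕ × Tup → List Tup) (h e : ℕ) (T : Tup × Tup) (j : ℕ) : Prop :=
  Inj T.1 j ∧ Inj T.2 j ∧
    8 * ((allLen (2 ^ j)).filter (fun y => BadY g h e T j y)).length ≤ 2 ^ (2 ^ j)

instance (g : ℕ × List ℕ × Tup → List Tup) (h e : ℕ) (T : Tup × Tup) (j : ℕ) :
    Decidable (Good g h e T j) := by unfold Good; infer_instance

section
variable {α β γ : Type} [Primcodable α] [Primcodable β] [Primcodable γ]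

theorem pr_exists {L : γ → List α} (hL : Primrec L) {R : γ → α → Prop}
    (hR : PrimrecPred (fun x : γ × α => R x.1 x.2)) :
    PrimrecPred (fun x : γ => ∃ a ∈ L x, R x a) := by
  have h1 : PrimrecRel (fun (a : α) (x : γ) => R x a) :=
    hR.comp (Primrec.pair Primrec.snd Primrec.fst)
  exact h1.exists_mem_list.comp hL Primrec.id

theorem pr_forall {L : γ → List α} (hL : Primrec L) {R : γ → α → Prop}
    (hR : PrimrecPred (fun x : γ × α => R x.1 x.2)) :
    PrimrecPred (fun x : γ => ∀ a ∈ L x, R x a) := by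
  have h1 : PrimrecRel (fun (a : α) (x : γ) => R x a) :=
    hR.comp (Primrec.pair Primrec.snd Primrec.fst)
  exact h1.forall_mem_list.comp hL Primrec.id

theorem pr_filter {L : γ → List α} (hL : Primrec L) {R : γ → α → Prop}
    [∀ x a, Decidable (R x a)]
    (hR : PrimrecPred (fun x : γ × α => R x.1 x.2)) :
    Primrec (fun x : γ => ((L x).filter (fun a => R x a)).length) := by
  have h1 : PrimrecRel (fun (a : α) (x : γ) => R x a) :=
    hR.comp (Primrec.pair Primrec.snd Primrec.fst)
  have : DecidableRel (fun (a : α) (x : γ) => R x a) := fun a x => inferInstance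
  refine (Primrec.list_length.comp (h1.listFilter.comp hL Primrec.id)).of_eq ?_
  intro x
  congr 1
  apply List.filter_congr
  intro a _
  exact decide_eq_decide.2 Iff.rfl

theorem pr_count [BEq α] [LawfulBEq α] {L : γ → List α} (hL : Primrec L) {z : γ → α}
    (hz : Primrec z) : Primrec (fun x : γ => (L x).count (z x)) := by
  classical
  have h := pr_filter (R := fun (x : γ) (a : α) => a = z x) hL
    (Primrec.eq.comp Primrec.snd (hz.comp Primrec.fst))
  refine h.of_eq (fun x => ?_)
  rw [List.count_eq_countP, List.countP_eq_length_filter]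
  congr 1
  apply List.filter_congr
  intro a _
  by_cases hz : a = z x <;> simp [hz]

theorem pr_pow {f : γ → ℕ} (hf : Primrec f) : Primrec (fun x => 2 ^ f x) := by
  have hpow : Primrec₂ (fun a b : ℕ => a ^ b) := Primrec₂.unpaired'.1 Nat.Primrec.pow
  exact hpow.comp (Primrec.const 2) hf

theorem pr_look {L : γ → Tup} (hL : Primrec L) {p : γ → List Bool} (hp : Primrec p) :
    Primrec (fun x => look (L x) (p x)) := by
  unfold look
  exact (Primrec.list_getD []).comp hL (primrec_val.comp hp)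

theorem pr_pairlist {f g : γ → List Bool} (hf : Primrec f) (hg : Primrec g) :
    Primrec (fun x => [f x, g x]) :=
  Primrec.list_cons.comp hf (Primrec.list_cons.comp hg (Primrec.const []))

end

section
variable {γ : Type} [Primcodable γ] {g : γ → ℕ × List ℕ × Tup → List Tup} (hg : Primrec₂ g)
include hg

theorem pr_full {j : γ → ℕ} (hj : Primrec j) {v : γ → List ℕ} (hv : Primrec v) :
    Primrec (fun x => full (g x) (j x) (v x)) := by
  unfold full
  have hs : Primrec (fun x => allLen (2 * 2 ^ j x)) :=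
    primrec_allLen.comp (Primrec.nat_mul.comp (Primrec.const 2) (pr_pow hj))
  refine Primrec.list_flatMap hs ?_
  show Primrec (fun p : γ × List Bool => (allLen (2 * 2 ^ j p.1)).flatMap fun w =>
    g p.1 (5 * 2 ^ j p.1, v p.1, [p.2, w]))
  refine Primrec.list_flatMap (hs.comp Primrec.fst) ?_
  show Primrec (fun p : (γ × List Bool) × List Bool =>
    g p.1.1 (5 * 2 ^ j p.1.1, v p.1.1, [p.1.2, p.2]))
  refine hg.comp (Primrec.fst.comp Primrec.fst) ?_
  refine Primrec.pair ?_ (Primrec.pair ?_ ?_)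
  · exact Primrec.nat_mul.comp (Primrec.const 5) (pr_pow (hj.comp (Primrec.fst.comp Primrec.fst)))
  · exact hv.comp (Primrec.fst.comp Primrec.fst)
  · exact pr_pairlist (Primrec.snd.comp Primrec.fst) Primrec.snd

theorem pr_blk {T : γ → Tup × Tup} (hT : Primrec T) {j : γ → ℕ} (hj : Primrec j)
    {v : γ → List ℕ} (hv : Primrec v) {y : γ → List Bool} (hy : Primrec y) :
    Primrec (fun x => blk (g x) (T x) (j x) (v x) (y x)) := by
  unfold blk
  have hs : Primrec (fun x => allLen (2 ^ j x)) := primrec_allLen.comp (pr_pow hj)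
  refine Primrec.list_flatMap hs ?_
  show Primrec (fun p : γ × List Bool => (allLen (2 ^ j p.1)).flatMap fun r₂ =>
    g p.1 (5 * 2 ^ j p.1, v p.1, [look (T p.1).1 (y p.1 ++ p.2), look (T p.1).2 (y p.1 ++ r₂)]))
  refine Primrec.list_flatMap (hs.comp Primrec.fst) ?_
  show Primrec (fun p : (γ × List Bool) × List Bool =>
    g p.1.1 (5 * 2 ^ j p.1.1, v p.1.1,
      [look (T p.1.1).1 (y p.1.1 ++ p.1.2), look (T p.1.1).2 (y p.1.1 ++ p.2)]))
  refine hg.comp (Primrec.fst.comp Primrec.fst) ?_
  refine Primrec.pair ?_ (Primrec.pair ?_ ?_)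
  · exact Primrec.nat_mul.comp (Primrec.const 5) (pr_pow (hj.comp (Primrec.fst.comp Primrec.fst)))
  · exact hv.comp (Primrec.fst.comp Primrec.fst)
  · refine pr_pairlist (pr_look ?_ ?_) (pr_look ?_ ?_)
    · exact Primrec.fst.comp (hT.comp (Primrec.fst.comp Primrec.fst))
    · exact Primrec.list_append.comp (hy.comp (Primrec.fst.comp Primrec.fst))
        (Primrec.snd.comp Primrec.fst)
    · exact Primrec.snd.comp (hT.comp (Primrec.fst.comp Primrec.fst))
    · exact Primrec.list_append.comp (hy.comp (Primrec.fst.comp Primrec.fst)) Primrec.snd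

omit hg in
theorem pr_H (h : ℕ) {j : γ → ℕ} (hj : Primrec j) : Primrec (fun x => 2 ^ (h * (j x + 2))) :=
  pr_pow (Primrec.nat_mul.comp (Primrec.const h) (Primrec.nat_add.comp hj (Primrec.const 2)))

theorem pr_Heavy (h : ℕ) {j : γ → ℕ} (hj : Primrec j) {v : γ → List ℕ} (hv : Primrec v)
    {z : γ → Tup} (hz : Primrec z) :
    PrimrecPred (fun x => Heavy (g x) h (j x) (v x) (z x)) := by
  unfold Heavy
  have hf := pr_full hg hj hv
  exact Primrec.nat_le.comp (Primrec.list_length.comp hf)
    (Primrec.nat_mul.comp (pr_H h hj) (pr_count hf hz))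

end

section
variable {γ : Type} [Primcodable γ] {g : γ → ℕ × List ℕ × Tup → List Tup} (hg : Primrec₂ g)
include hg

theorem pr_Bad (h : ℕ) {T : γ → Tup × Tup} (hT : Primrec T) {j : γ → ℕ} (hj : Primrec j)
    {v : γ → List ℕ} (hv : Primrec v) {y : γ → List Bool} (hy : Primrec y) :
    PrimrecPred (fun x => Bad (g x) h (T x) (j x) (v x) (y x)) := by
  unfold Bad
  have hb := pr_blk hg hT hj hv hy
  refine pr_exists hb ?_
  have hg' : Primrec₂ (fun (x : γ × Tup) a => g x.1 a) :=
    hg.comp (Primrec.fst.comp Primrec.fst) Primrec.snd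
  refine PrimrecPred.and ?_ (PrimrecPred.not ?_)
  · refine Primrec.nat_lt.comp ?_ ?_
    · exact Primrec.nat_mul.comp (Primrec.const 2) (Primrec.list_length.comp (hb.comp Primrec.fst))
    · exact Primrec.nat_mul.comp (pr_H h (hj.comp Primrec.fst))
        (pr_count (hb.comp Primrec.fst) Primrec.snd)
  · exact pr_Heavy hg' h (hj.comp Primrec.fst) (hv.comp Primrec.fst) Primrec.snd

theorem pr_BadY (h e : ℕ) {T : γ → Tup × Tup} (hT : Primrec T) {j : γ → ℕ} (hj : Primrec j)
    {y : γ → List Bool} (hy : Primrec y) :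
    PrimrecPred (fun x => BadY (g x) h e (T x) (j x) (y x)) := by
  unfold BadY
  refine pr_exists (Primrec.list_range.comp (pr_H e hj)) ?_
  have hg' : Primrec₂ (fun (x : γ × ℕ) a => g x.1 a) :=
    hg.comp (Primrec.fst.comp Primrec.fst) Primrec.snd
  refine pr_Bad hg' h (hT.comp Primrec.fst) (hj.comp Primrec.fst) ?_ (hy.comp Primrec.fst)
  exact (Primrec.ofNat (List ℕ)).comp Primrec.snd

omit hg in
theorem pr_Inj {L : γ → Tup} (hL : Primrec L) {j : γ → ℕ} (hj : Primrec j) :
    PrimrecPred (fun x => Inj (L x) (j x)) := by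
  unfold Inj
  have hs : Primrec (fun x => allLen (2 * 2 ^ j x)) :=
    primrec_allLen.comp (Primrec.nat_mul.comp (Primrec.const 2) (pr_pow hj))
  refine pr_forall hs (PrimrecPred.and ?_ (pr_forall (hs.comp Primrec.fst) ?_))
  · refine Primrec.eq.comp (Primrec.list_length.comp (pr_look (hL.comp Primrec.fst) Primrec.snd)) ?_
    exact Primrec.nat_mul.comp (Primrec.const 2) (pr_pow (hj.comp Primrec.fst))
  · have h1 : PrimrecPred (fun x : (γ × List Bool) × List Bool =>
        look (L x.1.1) x.1.2 = look (L x.1.1) x.2) :=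
      Primrec.eq.comp (pr_look (hL.comp (Primrec.fst.comp Primrec.fst)) (Primrec.snd.comp Primrec.fst))
        (pr_look (hL.comp (Primrec.fst.comp Primrec.fst)) Primrec.snd)
    have h2 : PrimrecPred (fun x : (γ × List Bool) × List Bool => x.1.2 = x.2) :=
      Primrec.eq.comp (Primrec.snd.comp Primrec.fst) Primrec.snd
    refine (PrimrecPred.or h1.not h2).of_eq ?_
    intro x
    tauto

theorem pr_Good (h e : ℕ) {T : γ → Tup × Tup} (hT : Primrec T) {j : γ → ℕ} (hj : Primrec j) :
    PrimrecPred (fun x => Good (g x) h e (T x) (j x)) := by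
  unfold Good
  refine PrimrecPred.and (pr_Inj (Primrec.fst.comp hT) hj)
    (PrimrecPred.and (pr_Inj (Primrec.snd.comp hT) hj) ?_)
  refine Primrec.nat_le.comp (Primrec.nat_mul.comp (Primrec.const 8) ?_) (pr_pow (pr_pow hj))
  refine pr_filter (primrec_allLen.comp (pr_pow hj)) ?_
  have hg' : Primrec₂ (fun (x : γ × List Bool) a => g x.1 a) :=
    hg.comp (Primrec.fst.comp Primrec.fst) Primrec.snd
  exact pr_BadY hg' h e (hT.comp Primrec.fst) (hj.comp Primrec.fst) Primrec.snd

end

end Pool.Agent.H570R2.SP
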