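import Mathlib
import Pool.Agent.H570R2.SP.Search

set_option autoImplicit false

namespace Pool.Agent.H570R2.SP

open Encodable
open Pool.Agent.Helper760.Kolm

theorem full_congr {g g' : ℕ × List ℕ × Tup → List Tup} {j : ℕ} {v : List ℕ}
    (h : ∀ u ∈ allLen (2 * 2 ^ j), ∀ w ∈ allLen (2 * 2 ^ j),
      g (5 * 2 ^ j, v, [u, w]) = g' (5 * 2 ^ j, v, [u, w])) : full g j v = full g' j v := by
  unfold full
  apply List.flatMap_congr
  intro u hu
  apply List.flatMap_congr
  intro w hw
  exact h u hu w hw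

theorem look_mem {L : Tup} {j : ℕ} (hL : Inj L j) {y r : List Bool} (hy : y ∈ allLen (2 ^ j))
    (hr : r ∈ allLen (2 ^ j)) : look L (y ++ r) ∈ allLen (2 * 2 ^ j) := by
  rw [mem_allLen] at hy hr
  have h1 : y ++ r ∈ allLen (2 * 2 ^ j) := by
    rw [mem_allLen, List.length_append, hy, hr]; ring
  rw [mem_allLen]
  exact (hL _ h1).1

theorem blk_congr {g g' : ℕ × List ℕ × Tup → List Tup} {j : ℕ} {v : List ℕ} {T : Tup × Tup}
    (h1 : Inj T.1 j) (h2 : Inj T.2 j) {y : List Bool} (hy : y ∈ allLen (2 ^ j))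
    (h : ∀ u ∈ allLen (2 * 2 ^ j), ∀ w ∈ allLen (2 * 2 ^ j),
      g (5 * 2 ^ j, v, [u, w]) = g' (5 * 2 ^ j, v, [u, w])) :
    blk g T j v y = blk g' T j v y := by
  unfold blk
  apply List.flatMap_congr
  intro r₁ hr₁
  apply List.flatMap_congr
  intro r₂ hr₂
  exact h _ (look_mem h1 hy hr₁) _ (look_mem h2 hy hr₂)

theorem Bad_congr {g g' : ℕ × List ℕ × Tup → List Tup} {hh j : ℕ} {v : List ℕ} {T : Tup × Tup}
    (h1 : Inj T.1 j) (h2 : Inj T.2 j) {y : List Bool} (hy : y ∈ allLen (2 ^ j))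
    (h : ∀ u ∈ allLen (2 * 2 ^ j), ∀ w ∈ allLen (2 * 2 ^ j),
      g (5 * 2 ^ j, v, [u, w]) = g' (5 * 2 ^ j, v, [u, w])) :
    Bad g hh T j v y ↔ Bad g' hh T j v y := by
  unfold Bad Heavy
  rw [full_congr h, blk_congr h1 h2 hy h]

theorem Good_congr {g g' : ℕ × List ℕ × Tup → List Tup} {hh e j : ℕ} {T : Tup × Tup}
    (h : ∀ i ∈ List.range (2 ^ (e * (j + 2))),
      ∀ u ∈ allLen (2 * 2 ^ j), ∀ w ∈ allLen (2 * 2 ^ j),
      g (5 * 2 ^ j, vl i, [u, w]) = g' (5 * 2 ^ j, vl i, [u, w])) (hg : Good g hh e T j) :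
    Good g' hh e T j := by
  obtain ⟨h1, h2, h3⟩ := hg
  refine ⟨h1, h2, ?_⟩
  have : (allLen (2 ^ j)).filter (fun y => decide (BadY g' hh e T j y)) =
      (allLen (2 ^ j)).filter (fun y => decide (BadY g hh e T j y)) := by
    apply List.filter_congr
    intro y hy
    apply decide_eq_decide.2
    unfold BadY
    constructor
    · rintro ⟨i, hi, hb⟩
      exact ⟨i, hi, (Bad_congr h1 h2 hy (h i hi)).2 hb⟩
    · rintro ⟨i, hi, hb⟩
      exact ⟨i, hi, (Bad_congr h1 h2 hy (h i hi)).1 hb⟩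
  rw [this]
  exact h3

/-- all values needed are defined at stage `t` -/
def DefV (F : ℕ → ℕ × List ℕ × Tup → Option (List Tup)) (t j : ℕ) (v : List ℕ) : Prop :=
  ∀ u ∈ allLen (2 * 2 ^ j), ∀ w ∈ allLen (2 * 2 ^ j), (F t (5 * 2 ^ j, v, [u, w])).isSome = true

instance (F : ℕ → ℕ × List ℕ × Tup → Option (List Tup)) (t j : ℕ) (v : List ℕ) :
    Decidable (DefV F t j v) := by unfold DefV; infer_instance

def DefOn (F : ℕ → ℕ × List ℕ × Tup → Option (List Tup)) (e t j : ℕ) : Prop :=
  ∀ i ∈ List.range (2 ^ (e * (j + 2))), DefV F t j (vl i)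

instance (F : ℕ → ℕ × List ℕ × Tup → Option (List Tup)) (e t j : ℕ) :
    Decidable (DefOn F e t j) := by unfold DefOn; infer_instance

theorem pr_DefV {F : ℕ → ℕ × List ℕ × Tup → Option (List Tup)} (hF : Primrec₂ F)
    {γ : Type} [Primcodable γ] {t : γ → ℕ} (ht : Primrec t) {j : γ → ℕ} (hj : Primrec j)
    {v : γ → List ℕ} (hv : Primrec v) : PrimrecPred (fun x => DefV F (t x) (j x) (v x)) := by
  unfold DefV
  have hs : Primrec (fun x => allLen (2 * 2 ^ j x)) :=
    primrec_allLen.comp (Primrec.nat_mul.comp (Primrec.const 2) (pr_pow hj))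
  refine pr_forall hs (pr_forall (hs.comp Primrec.fst) ?_)
  refine Primrec.eq.comp (Primrec.option_isSome.comp (hF.comp (ht.comp (Primrec.fst.comp Primrec.fst))
    (Primrec.pair ?_ (Primrec.pair ?_ ?_)))) (Primrec.const true)
  · exact Primrec.nat_mul.comp (Primrec.const 5) (pr_pow (hj.comp (Primrec.fst.comp Primrec.fst)))
  · exact hv.comp (Primrec.fst.comp Primrec.fst)
  · exact pr_pairlist (Primrec.snd.comp Primrec.fst) Primrec.snd

theorem pr_DefOn {F : ℕ → ℕ × List ℕ × Tup → Option (List Tup)} (hF : Primrec₂ F) (e : ℕ)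
    {γ : Type} [Primcodable γ] {t : γ → ℕ} (ht : Primrec t) {j : γ → ℕ} (hj : Primrec j) :
    PrimrecPred (fun x => DefOn F e (t x) (j x)) := by
  unfold DefOn
  refine pr_forall (Primrec.list_range.comp (pr_H e hj)) ?_
  exact pr_DefV hF (ht.comp Primrec.fst) (hj.comp Primrec.fst)
    ((Primrec.ofNat (List ℕ)).comp Primrec.snd)

/-- stage approximations to a total computable function -/
structure Stage (G : ℕ × List ℕ × Tup → List Tup)
    (F : ℕ → ℕ × List ℕ × Tup → Option (List Tup)) : Prop where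
  prim : Primrec₂ F
  sound : ∀ t a b, F t a = some b → b = G a
  complete : ∀ a, ∃ t, F t a = some (G a)
  mono : ∀ t t' a b, t ≤ t' → F t a = some b → F t' a = some b

theorem exists_stage {G : ℕ × List ℕ × Tup → List Tup} (hG : Computable G) :
    ∃ F, Stage G F := by
  obtain ⟨F, h1, h2, h3⟩ := exists_stepped (f := fun a => (Part.some (G a) : Part (List Tup)))
    hG.partrec
  refine ⟨F, h1, ?_, ?_, h3⟩
  · intro t a b h
    have := (h2 a b).2 ⟨t, h⟩
    simpa using this
  · intro a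
    exact (h2 a (G a)).1 (Part.mem_some _)

theorem Stage.list {G : ℕ × List ℕ × Tup → List Tup}
    {F : ℕ → ℕ × List ℕ × Tup → Option (List Tup)} (hF : Stage G F)
    {ι : Type} (a : ι → ℕ × List ℕ × Tup) (l : List ι) :
    ∃ t, ∀ x ∈ l, F t (a x) = some (G (a x)) := by
  induction l with
  | nil => exact ⟨0, by simp⟩
  | cons x l ih =>
    obtain ⟨t, ht⟩ := ih
    obtain ⟨t', ht'⟩ := hF.complete (a x)
    refine ⟨max t t', ?_⟩
    intro y hy
    rcases List.mem_cons.1 hy with rfl | hy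
    · exact hF.mono _ _ _ _ (le_max_right _ _) ht'
    · exact hF.mono _ _ _ _ (le_max_left _ _) (ht y hy)

theorem Stage.exists_DefOn {G : ℕ × List ℕ × Tup → List Tup}
    {F : ℕ → ℕ × List ℕ × Tup → Option (List Tup)} (hF : Stage G F) (e j : ℕ) :
    ∃ t, DefOn F e t j := by
  obtain ⟨t, ht⟩ := hF.list (fun x : ℕ × List Bool × List Bool => (5 * 2 ^ j, vl x.1, [x.2.1, x.2.2]))
    ((List.range (2 ^ (e * (j + 2)))).flatMap fun i => (allLen (2 * 2 ^ j)).flatMap fun u =>
      (allLen (2 * 2 ^ j)).map fun w => (i, u, w))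
  refine ⟨t, ?_⟩
  intro i hi u hu w hw
  have := ht (i, u, w) (by
    simp only [List.mem_flatMap, List.mem_map]
    exact ⟨i, hi, u, hu, w, hw, rfl⟩)
  simp only at this
  rw [this]
  rfl

theorem Stage.exists_DefV {G : ℕ × List ℕ × Tup → List Tup}
    {F : ℕ → ℕ × List ℕ × Tup → Option (List Tup)} (hF : Stage G F) (j : ℕ) (v : List ℕ) :
    ∃ t, DefV F t j v := by
  obtain ⟨t, ht⟩ := hF.list (fun x : List Bool × List Bool => (5 * 2 ^ j, v, [x.1, x.2]))
    ((allLen (2 * 2 ^ j)).flatMap fun u => (allLen (2 * 2 ^ j)).map fun w => (u, w))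
  refine ⟨t, ?_⟩
  intro u hu w hw
  have := ht (u, w) (by
    simp only [List.mem_flatMap, List.mem_map]
    exact ⟨u, hu, w, hw, rfl⟩)
  simp only at this
  rw [this]
  rfl

theorem DefV.eq {G : ℕ × List ℕ × Tup → List Tup}
    {F : ℕ → ℕ × List ℕ × Tup → Option (List Tup)} (hF : Stage G F) {t j : ℕ} {v : List ℕ}
    (h : DefV F t j v) : ∀ u ∈ allLen (2 * 2 ^ j), ∀ w ∈ allLen (2 * 2 ^ j),
      (F t (5 * 2 ^ j, v, [u, w])).getD [] = G (5 * 2 ^ j, v, [u, w]) := by
  intro u hu w hw
  obtain ⟨b, hb⟩ := Option.isSome_iff_exists.1 (h u hu w hw)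
  rw [hb]
  exact hF.sound _ _ _ hb

theorem pr_getD {F : ℕ → ℕ × List ℕ × Tup → Option (List Tup)} (hF : Primrec₂ F)
    {γ : Type} [Primcodable γ] {t : γ → ℕ} (ht : Primrec t) :
    Primrec₂ (fun (x : γ) a => (F (t x) a).getD []) := by
  have h1 : Primrec (fun p : γ × (ℕ × List ℕ × Tup) => F (t p.1) p.2) :=
    hF.comp (ht.comp Primrec.fst) Primrec.snd
  exact Primrec.option_getD.comp h1 (Primrec.const [])

/-- The search for a good table. -/
theorem exists_find {G : ℕ × List ℕ × Tup → List Tup} (hG : Computable G) (h e : ℕ) :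
    ∃ find : ℕ →. Tup × Tup, Partrec find ∧ (∀ j T, T ∈ find j → Good G h e T j) ∧
      ∀ j, (∃ T, Good G h e T j) → ∃ T, T ∈ find j := by
  obtain ⟨F, hF⟩ := exists_stage hG
  let chk : ℕ → ℕ → Option (Tup × Tup) := fun j m =>
    (decode (α := ℕ × (Tup × Tup)) m).bind fun z =>
      if DefOn F e z.1 j ∧ Good (fun a => (F z.1 a).getD []) h e z.2 j then some z.2 else none
  have hchk : Primrec₂ chk := by
    refine Primrec.option_bind (Primrec.decode.comp Primrec.snd) ?_
    refine Primrec.ite (PrimrecPred.and ?_ ?_) ?_ (Primrec.const none)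
    · exact pr_DefOn hF.prim e (Primrec.fst.comp Primrec.snd) (Primrec.fst.comp Primrec.fst)
    · exact pr_Good (pr_getD hF.prim (Primrec.fst.comp Primrec.snd)) h e
        (Primrec.snd.comp Primrec.snd) (Primrec.fst.comp Primrec.fst)
    · exact Primrec.option_some.comp (Primrec.snd.comp Primrec.snd)
  have hspec : ∀ j m T, chk j m = some T → Good G h e T j := by
    intro j m T hm
    simp only [chk, Option.bind_eq_some_iff] at hm
    obtain ⟨z, _, hz⟩ := hm
    split_ifs at hz with hc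
    cases hz
    refine Good_congr ?_ hc.2
    intro i hi u hu w hw
    exact (hc.1 i hi).eq hF u hu w hw
  refine ⟨fun j => Nat.rfindOpt (chk j), Partrec.rfindOpt hchk.to_comp, ?_, ?_⟩
  · intro j T hT
    obtain ⟨m, hm⟩ := Nat.rfindOpt_spec hT
    exact hspec j m T hm
  · rintro j ⟨T, hT⟩
    obtain ⟨t, ht⟩ := hF.exists_DefOn e j
    have h1 : ∃ n a, a ∈ chk j n := by
      refine ⟨encode (t, T), T, ?_⟩
      simp only [chk, encodek, Option.bind_some]
      rw [if_pos]
      · rfl
      · refine ⟨ht, Good_congr ?_ hT⟩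
        intro i hi u hu w hw
        exact ((ht i hi).eq hF u hu w hw).symm
    exact Part.dom_iff_mem.1 (Nat.rfindOpt_dom.2 h1)

/-- Complexity of pairs `x, y`. -/
theorem K_pair_le {find : ℕ →. Tup × Tup} (hfind : Partrec find) :
    ∃ c : ℕ, ∀ j T, T ∈ find j → ∀ y r : List Bool, y.length = 2 ^ j → r.length = 2 ^ j →
      K [look T.1 (y ++ r), y] () ≤ 2 * 2 ^ j + 2 * Nat.size j + c ∧
      K [look T.2 (y ++ r), y] () ≤ 2 * 2 ^ j + 2 * Nat.size j + c := by
  have hp1 : Partrec (fun x : ℕ × List Bool × Unit =>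
      (find x.1).map fun T => [look T.1 x.2.1, x.2.1.take (2 ^ x.1)]) := by
    refine Partrec.map (hfind.comp Computable.fst) (Primrec.to_comp ?_)
    refine pr_pairlist (pr_look (Primrec.fst.comp Primrec.snd)
      (Primrec.fst.comp (Primrec.snd.comp Primrec.fst))) ?_
    exact Primrec.list_take.comp (pr_pow (Primrec.fst.comp Primrec.fst))
      (Primrec.fst.comp (Primrec.snd.comp Primrec.fst))
  have hp2 : Partrec (fun x : ℕ × List Bool × Unit =>
      (find x.1).map fun T => [look T.2 x.2.1, x.2.1.take (2 ^ x.1)]) := by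
    refine Partrec.map (hfind.comp Computable.fst) (Primrec.to_comp ?_)
    refine pr_pairlist (pr_look (Primrec.snd.comp Primrec.snd)
      (Primrec.fst.comp (Primrec.snd.comp Primrec.fst))) ?_
    exact Primrec.list_take.comp (pr_pow (Primrec.fst.comp Primrec.fst))
      (Primrec.fst.comp (Primrec.snd.comp Primrec.fst))
  obtain ⟨c1, hc1⟩ := K_param _ hp1
  obtain ⟨c2, hc2⟩ := K_param _ hp2
  refine ⟨c1 + c2, ?_⟩
  intro j T hT y r hy hr
  have ht : (y ++ r).take (2 ^ j) = y := by rw [← hy, List.take_left]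
  constructor
  · have h1 := hc1 j (y ++ r) () [look T.1 (y ++ r), y] (by
      rw [Part.mem_map_iff]
      exact ⟨T, hT, by simp only [ht]⟩)
    rw [List.length_append, hy, hr] at h1
    simp only [encode_nat] at h1
    omega
  · have h1 := hc2 j (y ++ r) () [look T.2 (y ++ r), y] (by
      rw [Part.mem_map_iff]
      exact ⟨T, hT, by simp only [ht]⟩)
    rw [List.length_append, hy, hr] at h1
    simp only [encode_nat] at h1
    omega

/-- Complexity of heavy outputs. -/
theorem K_heavy_le {G : ℕ × List ℕ × Tup → List Tup} (hG : Computable G) (h : ℕ) :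
    ∃ c : ℕ, ∀ j v z, 0 < (full G j v).length → Heavy G h j v z →
      K z () ≤ h * (j + 2) + 2 * Nat.size (encode (j, v)) + c := by
  obtain ⟨F, hF⟩ := exists_stage hG
  let en : (ℕ × List ℕ) × Unit → ℕ → Option Tup := fun x m =>
    (decode (α := ℕ × Tup) m).bind fun z =>
      if DefV F z.1 x.1.1 x.1.2 ∧ Heavy (fun a => (F z.1 a).getD []) h x.1.1 x.1.2 z.2
        then some z.2 else none
  have hen : Primrec₂ en := by
    refine Primrec.option_bind (Primrec.decode.comp Primrec.snd) ?_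
    refine Primrec.ite (PrimrecPred.and ?_ ?_) ?_ (Primrec.const none)
    · exact pr_DefV hF.prim (Primrec.fst.comp Primrec.snd)
        (Primrec.fst.comp (Primrec.fst.comp (Primrec.fst.comp Primrec.fst)))
        (Primrec.snd.comp (Primrec.fst.comp (Primrec.fst.comp Primrec.fst)))
    · exact pr_Heavy (pr_getD hF.prim (Primrec.fst.comp Primrec.snd)) h
        (Primrec.fst.comp (Primrec.fst.comp (Primrec.fst.comp Primrec.fst)))
        (Primrec.snd.comp (Primrec.fst.comp (Primrec.fst.comp Primrec.fst)))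
        (Primrec.snd.comp Primrec.snd)
    · exact Primrec.option_some.comp (Primrec.snd.comp Primrec.snd)
  have hmem : ∀ j v z, (∃ t, en ((j, v), ()) t = some z) ↔ Heavy G h j v z := by
    intro j v z
    constructor
    · rintro ⟨t, ht⟩
      simp only [en, Option.bind_eq_some_iff] at ht
      obtain ⟨z', _, hz⟩ := ht
      split_ifs at hz with hc
      cases hz
      have h1 := hc.2
      unfold Heavy at h1 ⊢
      rwa [full_congr (hc.1.eq hF)] at h1
    · intro hz
      obtain ⟨t, ht⟩ := hF.exists_DefV j v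
      refine ⟨encode (t, z), ?_⟩
      simp only [en, encodek, Option.bind_some]
      rw [if_pos]
      refine ⟨ht, ?_⟩
      unfold Heavy at hz ⊢
      rwa [full_congr (ht.eq hF)]
  obtain ⟨c, hc⟩ := K_index hen
  refine ⟨c, ?_⟩
  intro j v z hpos hz
  refine hc (j, v) () (h * (j + 2)) ?_ z ((hmem j v z).2 hz)
  intro S hS
  have h1 : ∀ a ∈ S, (full G j v).length ≤ 2 ^ (h * (j + 2)) * (full G j v).count a :=
    fun a ha => (hmem j v a).1 (hS a ha)
  have h2 : ∑ a ∈ S, (full G j v).length ≤ ∑ a ∈ S, 2 ^ (h * (j + 2)) * (full G j v).count a :=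
    Finset.sum_le_sum h1
  have h3 : ∑ a ∈ S, (full G j v).count a ≤ (full G j v).length := by
    have h4 : ∑ a ∈ S ∩ (full G j v).toFinset, (full G j v).count a ≤
        ∑ a ∈ (full G j v).toFinset, (full G j v).count a :=
      Finset.sum_le_sum_of_subset Finset.inter_subset_right
    have h5 : ∑ a ∈ (full G j v).toFinset, (full G j v).count a = (full G j v).length := by
      rw [← List.sum_toFinset_count_eq_length (full G j v)]
      apply Finset.sum_congr rfl
      intro a _
      congr 1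
      exact lawful_beq_subsingleton _ _
    have h6 : ∑ a ∈ S, (full G j v).count a = ∑ a ∈ S ∩ (full G j v).toFinset, (full G j v).count a := by
      symm
      apply Finset.sum_subset Finset.inter_subset_left
      intro a ha hna
      apply List.count_eq_zero_of_not_mem
      intro hcon
      exact hna (Finset.mem_inter.2 ⟨ha, List.mem_toFinset.2 hcon⟩)
    omega
  rw [Finset.sum_const, smul_eq_mul, ← Finset.mul_sum] at h2
  have h7 : S.card * (full G j v).length ≤ 2 ^ (h * (j + 2)) * (full G j v).length :=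
    h2.trans (Nat.mul_le_mul_left _ h3)
  exact Nat.le_of_mul_le_mul_right h7 hpos

end Pool.Agent.H570R2.SP
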