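import Mathlib

set_option autoImplicit false

namespace Pool.Agent.H570R2.SP

open Finset

section
variable {F : Type} [Field F] [Fintype F] [DecidableEq F]

theorem sum_affine_ne {i i' : F} (h : i ≠ i') (ψ : F → F → ℝ) :
    ∑ t : F × F, ψ (t.1 * i + t.2) (t.1 * i' + t.2) = ∑ a : F, ∑ b : F, ψ a b := by
  rw [← Fintype.sum_prod_type' (fun a b => ψ a b)]
  have hne : i - i' ≠ 0 := sub_ne_zero.2 h
  let e : F × F ≃ F × F :=
    { toFun := fun t => (t.1 * i + t.2, t.1 * i' + t.2)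
      invFun := fun x => ((x.1 - x.2) / (i - i'), x.1 - (x.1 - x.2) / (i - i') * i)
      left_inv := by
        rintro ⟨α, β⟩
        ext
        · simp only
          field_simp
          ring
        · simp only
          field_simp
          ring
      right_inv := by
        rintro ⟨a, b⟩
        ext
        · simp only
          field_simp
          ring
        · simp only
          field_simp
          ring }
  exact Fintype.sum_equiv e _ _ (fun t => rfl)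

theorem sum_affine_one (i : F) (ψ : F → ℝ) :
    ∑ t : F × F, ψ (t.1 * i + t.2) = Fintype.card F * ∑ a : F, ψ a := by
  rw [Fintype.sum_prod_type]
  have h : ∀ α : F, ∑ β : F, ψ (α * i + β) = ∑ a : F, ψ a := fun α =>
    Fintype.sum_equiv (Equiv.addLeft (α * i)) _ _ (fun β => rfl)
  simp only [h]
  rw [sum_const, nsmul_eq_mul, card_univ]

variable (φ : F → F → ℝ) (W : ℝ)

/-- parameters of a pair of affine maps -/
abbrev Par (F : Type) := (F × F) × (F × F)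

def ap (t : F × F) (i : F) : F := t.1 * i + t.2

theorem sum_first (i k : F) :
    ∑ T : Par F, φ (ap T.1 i) (ap T.2 k) =
      (Fintype.card F : ℝ) ^ 2 * ∑ a : F, ∑ b : F, φ a b := by
  rw [Fintype.sum_prod_type]
  have h1 : ∀ t : F × F, ∑ t' : F × F, φ (ap t i) (ap t' k) =
      Fintype.card F * ∑ b : F, φ (ap t i) b := fun t =>
    sum_affine_one k (fun b => φ (ap t i) b)
  simp only [h1]
  have h2 := sum_affine_one i (fun a => (Fintype.card F : ℝ) * ∑ b : F, φ a b)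
  unfold ap
  rw [h2, ← mul_sum]
  ring

theorem sum_second {φ : F → F → ℝ} {W : ℝ} (h0 : ∀ a b, 0 ≤ φ a b) (hW : ∀ a b, φ a b ≤ W)
    (i i' k k' : F) :
    ∑ T : Par F, φ (ap T.1 i) (ap T.2 k) * φ (ap T.1 i') (ap T.2 k') ≤
      (∑ a : F, ∑ b : F, φ a b) ^ 2 +
      ((if i = i' then 1 else 0) + (if k = k' then 1 else 0)) *
        ((Fintype.card F : ℝ) ^ 2 * W * ∑ a : F, ∑ b : F, φ a b) := by
  have hW0 : 0 ≤ W := (h0 0 0).trans (hW 0 0)
  have hS : 0 ≤ ∑ a : F, ∑ b : F, φ a b := sum_nonneg fun a _ => sum_nonneg fun b _ => h0 a b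
  have hC : 0 ≤ (Fintype.card F : ℝ) ^ 2 * W * ∑ a : F, ∑ b : F, φ a b := by positivity
  by_cases h : i = i' ∨ k = k'
  · have h1 : ∑ T : Par F, φ (ap T.1 i) (ap T.2 k) * φ (ap T.1 i') (ap T.2 k') ≤
        ∑ T : Par F, φ (ap T.1 i) (ap T.2 k) * W :=
      sum_le_sum fun T _ => mul_le_mul_of_nonneg_left (hW _ _) (h0 _ _)
    rw [← sum_mul, sum_first] at h1
    have h2 : (1 : ℝ) ≤ ((if i = i' then 1 else 0) + (if k = k' then 1 else 0)) := by
      rcases h with h | h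
      · rw [if_pos h]; split_ifs <;> norm_num
      · rw [if_pos h]; split_ifs <;> norm_num
    have h3 := mul_le_mul_of_nonneg_right h2 hC
    nlinarith [sq_nonneg (∑ a : F, ∑ b : F, φ a b)]
  · push Not at h
    rw [if_neg h.1, if_neg h.2]
    rw [Fintype.sum_prod_type]
    have h1 : ∀ t : F × F, ∑ t' : F × F, φ (ap t i) (ap t' k) * φ (ap t i') (ap t' k') =
        (∑ b : F, φ (ap t i) b) * ∑ b' : F, φ (ap t i') b' := by
      intro t
      have := sum_affine_ne h.2 (fun b b' => φ (ap t i) b * φ (ap t i') b')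
      unfold ap at this ⊢
      rw [this, sum_mul_sum]
    simp only [h1]
    have h2 := sum_affine_ne h.1 (fun a a' => (∑ b : F, φ a b) * ∑ b' : F, φ a' b')
    unfold ap
    rw [h2, ← sum_mul_sum]
    apply le_of_eq
    ring

variable {ι : Type} [DecidableEq ι]

/-- the sum over a block -/
def X (φ : F → F → ℝ) (Rs : Finset ι) (x : ι → F) (T : Par F) : ℝ :=
  ∑ r ∈ Rs, ∑ r' ∈ Rs, φ (ap T.1 (x r)) (ap T.2 (x r'))

theorem sum_X (φ : F → F → ℝ) (Rs : Finset ι) (x : ι → F) :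
    ∑ T : Par F, X φ Rs x T = (Rs.card : ℝ) ^ 2 * ((Fintype.card F : ℝ) ^ 2 *
      ∑ a : F, ∑ b : F, φ a b) := by
  unfold X
  rw [sum_comm]
  have h1 : ∀ r ∈ Rs, ∑ T : Par F, ∑ r' ∈ Rs, φ (ap T.1 (x r)) (ap T.2 (x r')) =
      Rs.card * ((Fintype.card F : ℝ) ^ 2 * ∑ a : F, ∑ b : F, φ a b) := by
    intro r _
    rw [sum_comm]
    simp only [sum_first]
    rw [sum_const, nsmul_eq_mul]
  rw [sum_congr rfl h1, sum_const, nsmul_eq_mul]
  ring

theorem sum_X_sq {φ : F → F → ℝ} {W : ℝ} (h0 : ∀ a b, 0 ≤ φ a b) (hW : ∀ a b, φ a b ≤ W)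
    (Rs : Finset ι) (x : ι → F) (hx : Set.InjOn x Rs) :
    ∑ T : Par F, X φ Rs x T ^ 2 ≤ (Rs.card : ℝ) ^ 4 * (∑ a : F, ∑ b : F, φ a b) ^ 2 +
      2 * (Rs.card : ℝ) ^ 3 * ((Fintype.card F : ℝ) ^ 2 * W * ∑ a : F, ∑ b : F, φ a b) := by
  set S := ∑ a : F, ∑ b : F, φ a b with hS
  set C := (Fintype.card F : ℝ) ^ 2 * W * S with hC
  have h1 : ∀ T : Par F, X φ Rs x T ^ 2 =
      ∑ r ∈ Rs, ∑ s ∈ Rs, ∑ r' ∈ Rs, ∑ s' ∈ Rs,
        φ (ap T.1 (x r)) (ap T.2 (x s)) * φ (ap T.1 (x r')) (ap T.2 (x s')) := by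
    intro T
    unfold X
    rw [sq, sum_mul]
    apply sum_congr rfl
    intro r _
    rw [sum_mul]
    apply sum_congr rfl
    intro s _
    rw [mul_sum]
    apply sum_congr rfl
    intro r' _
    rw [mul_sum]
  simp only [h1]
  have h2 : ∑ T : Par F, ∑ r ∈ Rs, ∑ s ∈ Rs, ∑ r' ∈ Rs, ∑ s' ∈ Rs,
        φ (ap T.1 (x r)) (ap T.2 (x s)) * φ (ap T.1 (x r')) (ap T.2 (x s')) =
      ∑ r ∈ Rs, ∑ s ∈ Rs, ∑ r' ∈ Rs, ∑ s' ∈ Rs, ∑ T : Par F,
        φ (ap T.1 (x r)) (ap T.2 (x s)) * φ (ap T.1 (x r')) (ap T.2 (x s')) := by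
    rw [sum_comm]
    apply sum_congr rfl; intro r _
    rw [sum_comm]
    apply sum_congr rfl; intro s _
    rw [sum_comm]
    apply sum_congr rfl; intro r' _
    rw [sum_comm]
  rw [h2]
  have h3 : ∀ r ∈ Rs, ∀ s ∈ Rs, ∀ r' ∈ Rs, ∀ s' ∈ Rs, ∑ T : Par F,
        φ (ap T.1 (x r)) (ap T.2 (x s)) * φ (ap T.1 (x r')) (ap T.2 (x s')) ≤
      S ^ 2 + ((if r = r' then 1 else 0) + (if s = s' then 1 else 0)) * C := by
    intro r hr s hs r' hr' s' hs'
    have h4 := sum_second h0 hW (x r) (x r') (x s) (x s')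
    have e1 : (x r = x r') ↔ r = r' := ⟨fun h => hx hr hr' h, fun h => by rw [h]⟩
    have e2 : (x s = x s') ↔ s = s' := ⟨fun h => hx hs hs' h, fun h => by rw [h]⟩
    simp only [e1, e2] at h4
    exact h4
  have h5 : ∑ r ∈ Rs, ∑ s ∈ Rs, ∑ r' ∈ Rs, ∑ s' ∈ Rs, ∑ T : Par F,
        φ (ap T.1 (x r)) (ap T.2 (x s)) * φ (ap T.1 (x r')) (ap T.2 (x s')) ≤
      ∑ r ∈ Rs, ∑ s ∈ Rs, ∑ r' ∈ Rs, ∑ s' ∈ Rs,
        (S ^ 2 + ((if r = r' then 1 else 0) + (if s = s' then 1 else 0)) * C) := by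
    apply sum_le_sum; intro r hr
    apply sum_le_sum; intro s hs
    apply sum_le_sum; intro r' hr'
    apply sum_le_sum; intro s' hs'
    exact h3 r hr s hs r' hr' s' hs'
  refine h5.trans (le_of_eq ?_)
  have h6 : ∀ r ∈ Rs, ∀ s ∈ Rs, ∀ r' ∈ Rs, ∑ s' ∈ Rs,
      (S ^ 2 + ((if r = r' then (1 : ℝ) else 0) + (if s = s' then 1 else 0)) * C) =
      Rs.card * (S ^ 2 + (if r = r' then (1 : ℝ) else 0) * C) + C := by
    intro r _ s hs r' _
    have : ∀ s' ∈ Rs, (S ^ 2 + ((if r = r' then (1 : ℝ) else 0) + (if s = s' then 1 else 0)) * C) =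
        (S ^ 2 + (if r = r' then (1 : ℝ) else 0) * C) + (if s = s' then 1 else 0) * C := by
      intro s' _; ring
    rw [sum_congr rfl this, sum_add_distrib, sum_const, nsmul_eq_mul, ← sum_mul]
    simp [hs]
  have h7 : ∀ r ∈ Rs, ∀ s ∈ Rs, ∑ r' ∈ Rs, ∑ s' ∈ Rs,
      (S ^ 2 + ((if r = r' then (1 : ℝ) else 0) + (if s = s' then 1 else 0)) * C) =
      Rs.card * (Rs.card * S ^ 2 + C) + Rs.card * C := by
    intro r hr s hs
    rw [sum_congr rfl (h6 r hr s hs)]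
    have : ∀ r' ∈ Rs, (Rs.card * (S ^ 2 + (if r = r' then (1 : ℝ) else 0) * C) + C) =
        (Rs.card * S ^ 2 + C) + (if r = r' then (1 : ℝ) else 0) * (Rs.card * C) := by
      intro r' _; ring
    rw [sum_congr rfl this, sum_add_distrib, sum_const, nsmul_eq_mul, ← sum_mul]
    simp [hr]
  have h8 : ∀ r ∈ Rs, ∑ s ∈ Rs, ∑ r' ∈ Rs, ∑ s' ∈ Rs,
      (S ^ 2 + ((if r = r' then (1 : ℝ) else 0) + (if s = s' then 1 else 0)) * C) =
      Rs.card * (Rs.card * (Rs.card * S ^ 2 + C) + Rs.card * C) := by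
    intro r hr
    rw [sum_congr rfl (h7 r hr), sum_const, nsmul_eq_mul]
  rw [sum_congr rfl h8, sum_const, nsmul_eq_mul]
  ring

theorem variance {φ : F → F → ℝ} {W : ℝ} (h0 : ∀ a b, 0 ≤ φ a b) (hW : ∀ a b, φ a b ≤ W)
    (Rs : Finset ι) (x : ι → F) (hx : Set.InjOn x Rs) :
    ∑ T : Par F, (X φ Rs x T - (Rs.card : ℝ) ^ 2 * (∑ a : F, ∑ b : F, φ a b) /
        (Fintype.card F : ℝ) ^ 2) ^ 2 ≤
      2 * (Rs.card : ℝ) ^ 3 * ((Fintype.card F : ℝ) ^ 2 * W * ∑ a : F, ∑ b : F, φ a b) := by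
  set S := ∑ a : F, ∑ b : F, φ a b with hS
  set q : ℝ := (Fintype.card F : ℝ) with hq
  set R : ℝ := (Rs.card : ℝ) with hR
  have hq0 : 0 < q := by
    rw [hq]
    exact_mod_cast Fintype.card_pos
  set μ := R ^ 2 * S / q ^ 2 with hμ
  have h1 : ∀ T : Par F, (X φ Rs x T - μ) ^ 2 = X φ Rs x T ^ 2 - 2 * μ * X φ Rs x T + μ ^ 2 := by
    intro T; ring
  simp only [h1]
  rw [sum_add_distrib, sum_sub_distrib, ← mul_sum, sum_X, sum_const, nsmul_eq_mul, card_univ]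
  have h2 := sum_X_sq h0 hW Rs x hx
  have h3 : (Fintype.card (Par F) : ℝ) = q ^ 4 := by
    rw [hq]
    simp only [Par, Fintype.card_prod]
    push_cast
    ring
  rw [h3]
  have h4 : 2 * μ * (R ^ 2 * (q ^ 2 * S)) = 2 * (R ^ 4 * S ^ 2) := by
    rw [hμ]; field_simp
  have h5 : q ^ 4 * μ ^ 2 = R ^ 4 * S ^ 2 := by
    rw [hμ]; field_simp
  rw [h4, h5]
  linarith

/-- Chebyshev for one output. -/
theorem cheb {φ : F → F → ℝ} {W H : ℝ} (h0 : ∀ a b, 0 ≤ φ a b) (hW : ∀ a b, φ a b ≤ W)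
    (hWpos : 0 < W) (hH : 0 < H) (Rs : Finset ι) (x : ι → F) (hx : Set.InjOn x Rs)
    (hR : 0 < Rs.card) (hS : H * ∑ a : F, ∑ b : F, φ a b < (Fintype.card F : ℝ) ^ 2 * W) :
    ((univ.filter (fun T : Par F => 2 * ((Rs.card : ℝ) ^ 2 * W) < H * X φ Rs x T)).card : ℝ) *
      (Rs.card * W) ≤ 2 * H ^ 2 * (Fintype.card F : ℝ) ^ 2 * ∑ a : F, ∑ b : F, φ a b := by
  have hvar := variance h0 hW Rs x hx
  set S := ∑ a : F, ∑ b : F, φ a b with hSdef
  set q : ℝ := (Fintype.card F : ℝ) with hq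
  set R : ℝ := (Rs.card : ℝ) with hRdef
  have hq0 : 0 < q := by
    rw [hq]
    exact_mod_cast Fintype.card_pos
  have hR0 : 0 < R := by rw [hRdef]; exact_mod_cast hR
  set μ := R ^ 2 * S / q ^ 2 with hμ
  set B := univ.filter (fun T : Par F => 2 * (R ^ 2 * W) < H * X φ Rs x T) with hB
  have h1 : ∀ T ∈ B, (R ^ 2 * W / H) ^ 2 ≤ (X φ Rs x T - μ) ^ 2 := by
    intro T hT
    rw [hB, mem_filter] at hT
    have e1 : μ < R ^ 2 * W / H := by
      rw [hμ, div_lt_div_iff₀ (by positivity) hH]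
      have : R ^ 2 * (H * S) < R ^ 2 * (q ^ 2 * W) := by
        apply mul_lt_mul_of_pos_left hS
        positivity
      nlinarith
    have e2 : 2 * (R ^ 2 * W / H) < X φ Rs x T := by
      rw [← mul_div_assoc, div_lt_iff₀ hH]
      linarith [hT.2]
    have e3 : 0 < R ^ 2 * W / H := by positivity
    apply pow_le_pow_left₀ e3.le
    linarith
  have h2 : (B.card : ℝ) * (R ^ 2 * W / H) ^ 2 ≤ ∑ T ∈ B, (X φ Rs x T - μ) ^ 2 := by
    rw [← nsmul_eq_mul, ← sum_const]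
    exact sum_le_sum h1
  have h3 : ∑ T ∈ B, (X φ Rs x T - μ) ^ 2 ≤ ∑ T : Par F, (X φ Rs x T - μ) ^ 2 :=
    sum_le_sum_of_subset_of_nonneg (subset_univ _) (fun T _ _ => sq_nonneg _)
  have h4 := (h2.trans h3).trans hvar
  have h5 : (B.card : ℝ) * (R ^ 2 * W / H) ^ 2 = (B.card * (R * W)) * (R ^ 3 * W / H ^ 2) := by
    field_simp
  rw [h5] at h4
  have h6 : 2 * R ^ 3 * (q ^ 2 * W * S) = (2 * H ^ 2 * q ^ 2 * S) * (R ^ 3 * W / H ^ 2) := by
    field_simp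
  rw [h6] at h4
  exact le_of_mul_le_mul_right h4 (by positivity)

end

end Pool.Agent.H570R2.SP
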