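import Mathlib
import Pool.Agent.H570R2.SP.Find
import Pool.Agent.H570R2.SP.Moment

set_option autoImplicit false

namespace Pool.Agent.H570R2.SP

open Pool.Agent.Helper760.Kolm

theorem val_lt (l : List Bool) : val l < 2 ^ l.length := by
  induction l with
  | nil => simp
  | cons b l ih =>
    rw [val_cons, List.length_cons, pow_succ]
    cases b <;> simp <;> omega

theorem val_inj (l l' : List Bool) (hl : l.length = l'.length) (h : val l = val l') : l = l' := by
  induction l generalizing l' with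
  | nil =>
    cases l' with
    | nil => rfl
    | cons b l' => simp at hl
  | cons b l ih =>
    cases l' with
    | nil => simp at hl
    | cons b' l' =>
      rw [val_cons, val_cons] at h
      have hb : b = b' := by
        cases b <;> cases b' <;> simp at h ⊢ <;> omega
      subst hb
      have h2 : val l = val l' := by omega
      rw [ih l' (by simpa using hl) h2]

theorem exists_table (m : ℕ) (f : List Bool → List Bool) :
    ∃ L : Tup, ∀ p ∈ allLen m, look L p = f p := by
  classical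
  refine ⟨(List.range (2 ^ m)).map (fun i => if h : ∃ p ∈ allLen m, val p = i then f h.choose
    else []), ?_⟩
  intro p hp
  have hp' := (mem_allLen _ _).1 hp
  have hlt : val p < 2 ^ m := by rw [← hp']; exact val_lt p
  unfold look
  rw [List.getD_eq_getElem?_getD, List.getElem?_map, List.getElem?_range hlt]
  simp only [Option.map_some, Option.getD_some]
  have hex : ∃ q ∈ allLen m, val q = val p := ⟨p, hp, rfl⟩
  rw [dif_pos hex]
  have h1 := hex.choose_spec
  have h2 : hex.choose = p := by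
    apply val_inj _ _ _ h1.2
    rw [(mem_allLen _ _).1 h1.1, hp']
  rw [h2]

/-- length of a `flatMap` with constant lengths -/
theorem length_flatMap_const {α β : Type} (l : List α) (f : α → List β) (c : ℕ)
    (h : ∀ x ∈ l, (f x).length = c) : (l.flatMap f).length = l.length * c := by
  rw [List.length_flatMap]
  have : l.map (fun a => (f a).length) = l.map (fun _ => c) := List.map_congr_left h
  rw [this]
  simp

theorem length_full {g : ℕ × List ℕ × Tup → List Tup} {W j : ℕ} {v : List ℕ}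
    (hg : ∀ u w, (g (5 * 2 ^ j, v, [u, w])).length = W) :
    (full g j v).length = 2 ^ (2 * 2 ^ j) * (2 ^ (2 * 2 ^ j) * W) := by
  unfold full
  rw [length_flatMap_const _ _ (2 ^ (2 * 2 ^ j) * W), length_allLen]
  intro u _
  rw [length_flatMap_const _ _ W, length_allLen]
  intro w _
  exact hg u w

theorem length_blk {g : ℕ × List ℕ × Tup → List Tup} {T : Tup × Tup} {W j : ℕ} {v : List ℕ}
    {y : List Bool}
    (hg : ∀ u w, (g (5 * 2 ^ j, v, [u, w])).length = W) :
    (blk g T j v y).length = 2 ^ (2 ^ j) * (2 ^ (2 ^ j) * W) := by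
  unfold blk
  rw [length_flatMap_const _ _ (2 ^ (2 ^ j) * W), length_allLen]
  intro u _
  rw [length_flatMap_const _ _ W, length_allLen]
  intro w _
  exact hg _ _

theorem sum_allLen (m : ℕ) (f : List Bool → ℕ) :
    ((allLen m).map f).sum = ∑ p ∈ (allLen m).toFinset, f p :=
  (List.sum_toFinset f (nodup_allLen m)).symm

theorem count_full (g : ℕ × List ℕ × Tup → List Tup) (j : ℕ) (v : List ℕ) (z : Tup) :
    (full g j v).count z = ∑ u ∈ (allLen (2 * 2 ^ j)).toFinset,
      ∑ w ∈ (allLen (2 * 2 ^ j)).toFinset, (g (5 * 2 ^ j, v, [u, w])).count z := by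
  unfold full
  rw [List.count_flatMap, ← sum_allLen]
  congr 1
  apply List.map_congr_left
  intro u _
  simp only [Function.comp]
  rw [List.count_flatMap, ← sum_allLen]
  rfl

theorem count_blk (g : ℕ × List ℕ × Tup → List Tup) (T : Tup × Tup) (j : ℕ) (v : List ℕ)
    (y : List Bool) (z : Tup) :
    (blk g T j v y).count z = ∑ r ∈ (allLen (2 ^ j)).toFinset,
      ∑ r' ∈ (allLen (2 ^ j)).toFinset,
        (g (5 * 2 ^ j, v, [look T.1 (y ++ r), look T.2 (y ++ r')])).count z := by
  unfold blk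
  rw [List.count_flatMap, ← sum_allLen]
  congr 1
  apply List.map_congr_left
  intro u _
  simp only [Function.comp]
  rw [List.count_flatMap, ← sum_allLen]
  rfl

theorem card_allLen (m : ℕ) : ((allLen m).toFinset).card = 2 ^ m := by
  rw [List.toFinset_card_of_nodup (nodup_allLen m), length_allLen]

theorem sum_count_le (l : List Tup) (S : Finset Tup) : ∑ z ∈ S, l.count z ≤ l.length := by
  classical
  induction l with
  | nil => simp
  | cons a l ih =>
    simp only [List.count_cons, List.length_cons, Finset.sum_add_distrib]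
    have : ∑ z ∈ S, (if (a == z) = true then 1 else 0) ≤ 1 := by
      simp only [beq_iff_eq]
      rw [Finset.sum_ite_eq S a (fun _ => 1)]
      split_ifs <;> simp
    omega

section
variable {F : Type} [Field F] [Fintype F] [DecidableEq F]

/-- Few parameters are bad for a given block. -/
theorem few_bad (g : ℕ × List ℕ × Tup → List Tup) (h j W : ℕ) (v : List ℕ) (y : List Bool)
    (hy : y ∈ allLen (2 ^ j)) (hW : 0 < W)
    (hg : ∀ u w, (g (5 * 2 ^ j, v, [u, w])).length = W)
    (em : F → List Bool) (inv : List Bool → F)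
    (hem : ∀ a, em a ∈ allLen (2 * 2 ^ j))
    (hinv : ∀ p ∈ allLen (2 * 2 ^ j), em (inv p) = p)
    (heminj : Function.Injective em)
    (hcard : Fintype.card F = 2 ^ (2 * 2 ^ j))
    (tab : F × F → Tup) (htab : ∀ t, ∀ p ∈ allLen (2 * 2 ^ j), look (tab t) p = em (ap t (inv p))) :
    ((Finset.univ.filter (fun T : Par F => Bad g h (tab T.1, tab T.2) j v y)).card : ℝ) *
      2 ^ (2 ^ j) ≤ 2 * (2 ^ (h * (j + 2))) ^ 2 * (Fintype.card F : ℝ) ^ 4 := by
  classical
  set Rs := (allLen (2 ^ j)).toFinset with hRs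
  have hRc : Rs.card = 2 ^ (2 ^ j) := card_allLen _
  let x : List Bool → F := fun r => inv (y ++ r)
  have hyl : y.length = 2 ^ j := (mem_allLen _ _).1 hy
  have hyr : ∀ r ∈ Rs, y ++ r ∈ allLen (2 * 2 ^ j) := by
    intro r hr
    rw [hRs, List.mem_toFinset, mem_allLen] at hr
    rw [mem_allLen, List.length_append, hyl, hr]; ring
  have hx : Set.InjOn x Rs := by
    intro r hr r' hr' hxx
    have h1 := hinv _ (hyr r hr)
    have h2 := hinv _ (hyr r' hr')
    have h3 : y ++ r = y ++ r' := by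
      rw [← h1, ← h2]
      exact congrArg em hxx
    exact List.append_cancel_left h3
  let φ : Tup → F → F → ℝ := fun z a b => ((g (5 * 2 ^ j, v, [em a, em b])).count z : ℝ)
  have h0 : ∀ z a b, 0 ≤ φ z a b := fun z a b => Nat.cast_nonneg _
  have hWb : ∀ z a b, φ z a b ≤ W := by
    intro z a b
    have h1 : (g (5 * 2 ^ j, v, [em a, em b])).count z ≤ W := by
      rw [← hg (em a) (em b)]
      exact List.count_le_length
    show (((g (5 * 2 ^ j, v, [em a, em b])).count z : ℕ) : ℝ) ≤ W
    exact_mod_cast h1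
  -- sums over `F` and over strings
  have hsumF : ∀ f : List Bool → ℕ, ∑ p ∈ (allLen (2 * 2 ^ j)).toFinset, f p = ∑ a : F, f (em a) := by
    intro f
    symm
    apply Finset.sum_bij (fun a _ => em a)
    · intro a _; rw [List.mem_toFinset]; exact hem a
    · intro a _ b _ hab; exact heminj hab
    · intro p hp
      rw [List.mem_toFinset] at hp
      exact ⟨inv p, Finset.mem_univ _, hinv p hp⟩
    · intro a _; rfl
  have hfull : ∀ z, ((full g j v).count z : ℝ) = ∑ a : F, ∑ b : F, φ z a b := by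
    intro z
    rw [count_full, hsumF]
    push_cast
    apply Finset.sum_congr rfl
    intro a _
    have := hsumF (fun w => (g (5 * 2 ^ j, v, [em a, w])).count z)
    have h2 : ((∑ w ∈ (allLen (2 * 2 ^ j)).toFinset, (g (5 * 2 ^ j, v, [em a, w])).count z : ℕ) : ℝ) =
        ((∑ b : F, (g (5 * 2 ^ j, v, [em a, em b])).count z : ℕ) : ℝ) := by rw [this]
    push_cast at h2
    exact h2
  have hblk : ∀ z (T : Par F), ((blk g (tab T.1, tab T.2) j v y).count z : ℝ) = X (φ z) Rs x T := by
    intro z T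
    rw [count_blk]
    unfold X
    push_cast
    apply Finset.sum_congr rfl
    intro r hr
    apply Finset.sum_congr rfl
    intro r' hr'
    rw [htab _ _ (hyr r hr), htab _ _ (hyr r' hr')]
  have hlenf : (full g j v).length = 2 ^ (2 * 2 ^ j) * (2 ^ (2 * 2 ^ j) * W) := length_full hg
  have hlenb : ∀ T : Par F, (blk g (tab T.1, tab T.2) j v y).length =
      2 ^ (2 ^ j) * (2 ^ (2 ^ j) * W) := fun T => length_blk hg
  set H : ℝ := 2 ^ (h * (j + 2)) with hH
  have hHpos : 0 < H := by positivity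
  set q : ℝ := (Fintype.card F : ℝ) with hq
  have hqv : q = 2 ^ (2 * 2 ^ j) := by rw [hq, hcard]; push_cast; rfl
  set Zs := ((full g j v).toFinset).filter (fun z => ¬ Heavy g h j v z) with hZs
  have hlight : ∀ z, ¬ Heavy g h j v z → H * ∑ a : F, ∑ b : F, φ z a b < q ^ 2 * W := by
    intro z hz
    unfold Heavy at hz
    rw [not_le, hlenf] at hz
    rw [← hfull, hqv, hH]
    have h1 : ((2 ^ (h * (j + 2)) * (full g j v).count z : ℕ) : ℝ) <
        ((2 ^ (2 * 2 ^ j) * (2 ^ (2 * 2 ^ j) * W) : ℕ) : ℝ) := by exact_mod_cast hz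
    push_cast at h1
    nlinarith
  have hsub : Finset.univ.filter (fun T : Par F => Bad g h (tab T.1, tab T.2) j v y) ⊆
      Zs.biUnion (fun z => Finset.univ.filter (fun T : Par F =>
        2 * ((Rs.card : ℝ) ^ 2 * W) < H * X (φ z) Rs x T)) := by
    intro T hT
    rw [Finset.mem_filter] at hT
    obtain ⟨z, hzb, hz1, hz2⟩ := hT.2
    rw [Finset.mem_biUnion]
    refine ⟨z, ?_, ?_⟩
    · rw [hZs, Finset.mem_filter, List.mem_toFinset]
      refine ⟨?_, hz2⟩
      unfold blk at hzb
      simp only [List.mem_flatMap] at hzb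
      obtain ⟨r, hr, r', hr', hzz⟩ := hzb
      unfold full
      simp only [List.mem_flatMap]
      have e1 := hyr r (by rw [hRs, List.mem_toFinset]; exact hr)
      have e2 := hyr r' (by rw [hRs, List.mem_toFinset]; exact hr')
      refine ⟨_, ?_, _, ?_, hzz⟩
      · rw [htab _ _ e1]; exact hem _
      · rw [htab _ _ e2]; exact hem _
    · rw [Finset.mem_filter]
      refine ⟨Finset.mem_univ _, ?_⟩
      rw [← hblk, hRc, hH]
      rw [hlenb] at hz1
      have h1 : ((2 * (2 ^ (2 ^ j) * (2 ^ (2 ^ j) * W)) : ℕ) : ℝ) <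
        ((2 ^ (h * (j + 2)) * (blk g (tab T.1, tab T.2) j v y).count z : ℕ) : ℝ) := by
        exact_mod_cast hz1
      push_cast at h1 ⊢
      nlinarith
  have hcardle : ((Finset.univ.filter (fun T : Par F => Bad g h (tab T.1, tab T.2) j v y)).card : ℝ) ≤
      ∑ z ∈ Zs, ((Finset.univ.filter (fun T : Par F =>
        2 * ((Rs.card : ℝ) ^ 2 * W) < H * X (φ z) Rs x T)).card : ℝ) := by
    have := (Finset.card_le_card hsub).trans Finset.card_biUnion_le
    exact_mod_cast this
  have hWr : (0 : ℝ) < W := by exact_mod_cast hW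
  have hRpos : 0 < Rs.card := by rw [hRc]; positivity
  have hRr : (0 : ℝ) < Rs.card := by exact_mod_cast hRpos
  have hcheb : ∀ z ∈ Zs, ((Finset.univ.filter (fun T : Par F =>
        2 * ((Rs.card : ℝ) ^ 2 * W) < H * X (φ z) Rs x T)).card : ℝ) * (Rs.card * W) ≤
      2 * H ^ 2 * q ^ 2 * ∑ a : F, ∑ b : F, φ z a b := by
    intro z hz
    rw [hZs, Finset.mem_filter] at hz
    exact cheb (h0 z) (hWb z) hWr hHpos Rs x hx hRpos (hlight z hz.2)
  have hsumZ : ∑ z ∈ Zs, ∑ a : F, ∑ b : F, φ z a b ≤ q ^ 2 * W := by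
    have h1 := sum_count_le (full g j v) Zs
    rw [hlenf] at h1
    have h2 : ((∑ z ∈ Zs, (full g j v).count z : ℕ) : ℝ) ≤
        ((2 ^ (2 * 2 ^ j) * (2 ^ (2 * 2 ^ j) * W) : ℕ) : ℝ) := by exact_mod_cast h1
    push_cast at h2
    simp only [hfull] at h2
    rw [hqv]
    nlinarith
  have hfin : (∑ z ∈ Zs, ((Finset.univ.filter (fun T : Par F =>
        2 * ((Rs.card : ℝ) ^ 2 * W) < H * X (φ z) Rs x T)).card : ℝ)) * (Rs.card * W) ≤
      (2 * H ^ 2 * q ^ 4) * W := by
    rw [Finset.sum_mul]
    refine (Finset.sum_le_sum hcheb).trans ?_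
    rw [← Finset.mul_sum]
    calc 2 * H ^ 2 * q ^ 2 * ∑ z ∈ Zs, ∑ a : F, ∑ b : F, φ z a b ≤ 2 * H ^ 2 * q ^ 2 * (q ^ 2 * W) := by
          apply mul_le_mul_of_nonneg_left hsumZ; positivity
      _ = _ := by ring
  have h9 : ((Finset.univ.filter (fun T : Par F => Bad g h (tab T.1, tab T.2) j v y)).card : ℝ) *
      (Rs.card * W) ≤ (2 * H ^ 2 * q ^ 4) * W :=
    (mul_le_mul_of_nonneg_right hcardle (by positivity)).trans hfin
  rw [← mul_assoc] at h9
  have h10 := le_of_mul_le_mul_right h9 hWr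
  rw [hRc] at h10
  push_cast at h10
  exact h10

end

/-- A finite field structure on the strings of length `m`. -/
theorem exists_field (m : ℕ) (hm : m ≠ 0) :
    ∃ (F : Type) (_ : Field F) (_ : Fintype F) (em : F → List Bool) (inv : List Bool → F),
      (∀ a, em a ∈ allLen m) ∧ (∀ p ∈ allLen m, em (inv p) = p) ∧ Function.Injective em ∧
      Fintype.card F = 2 ^ m := by
  classical
  have : Fact (Nat.Prime 2) := ⟨Nat.prime_two⟩
  let F := GaloisField 2 m
  have : Fintype F := Fintype.ofFinite F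
  have hcard : Fintype.card F = 2 ^ m := by
    rw [← Nat.card_eq_fintype_card]
    exact GaloisField.card 2 _ hm
  obtain ⟨S, hS⟩ : ∃ S : Finset (List Bool), S = (allLen m).toFinset := ⟨_, rfl⟩
  have hSc : S.card = 2 ^ m := by rw [hS, card_allLen]
  have hcardS : Fintype.card F = Fintype.card S := by
    rw [hcard, Fintype.card_coe, hSc]
  let eq : F ≃ S := Fintype.equivOfCardEq hcardS
  have hmem : ∀ p, p ∈ S ↔ p ∈ allLen m := by intro p; rw [hS, List.mem_toFinset]
  refine ⟨F, inferInstance, inferInstance, fun a => (eq a).1,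
    fun p => if hp : p ∈ S then eq.symm ⟨p, hp⟩ else 0, ?_, ?_, ?_, hcard⟩
  · intro a
    exact (hmem _).1 (eq a).2
  · intro p hp
    have hp' := (hmem p).2 hp
    simp only [dif_pos hp', Equiv.apply_symm_apply]
  · intro a b hab
    exact eq.injective (Subtype.ext hab)

/-- Good tables exist. -/
theorem exists_good (g : ℕ × List ℕ × Tup → List Tup) (h e j W : ℕ) (hW : 0 < W)
    (hg : ∀ v u w, (g (5 * 2 ^ j, v, [u, w])).length = W)
    (hbig : 64 * 2 ^ (e * (j + 2)) * (2 ^ (h * (j + 2))) ^ 2 < 2 ^ (2 ^ j)) :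
    ∃ T, Good g h e T j := by
  classical
  have hm : 2 * 2 ^ j ≠ 0 := by positivity
  obtain ⟨F, _, _, em, inv, hem, hinv, heminj, hcard⟩ := exists_field (2 * 2 ^ j) hm
  have htabex : ∀ t : F × F, ∃ L : Tup, ∀ p ∈ allLen (2 * 2 ^ j), look L p = em (ap t (inv p)) :=
    fun t => exists_table _ _
  choose tab htab using htabex
  set q := Fintype.card F with hq
  set s := 2 ^ j with hs
  have hfb : ∀ v, ∀ y ∈ allLen (2 ^ j),
      (Finset.univ.filter (fun T : Par F => Bad g h (tab T.1, tab T.2) j v y)).card * 2 ^ s ≤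
        2 * (2 ^ (h * (j + 2))) ^ 2 * q ^ 4 := by
    intro v y hy
    have := few_bad g h j W v y hy hW (hg v) em inv hem hinv heminj hcard tab htab
    exact_mod_cast this
  -- the number of bad blocks
  let N : Par F → ℕ := fun T => ((allLen s).filter (fun y => BadY g h e (tab T.1, tab T.2) j y)).length
  have hN : ∀ T, N T ≤ ∑ y ∈ (allLen s).toFinset, ∑ i ∈ Finset.range (2 ^ (e * (j + 2))),
      if Bad g h (tab T.1, tab T.2) j (vl i) y then 1 else 0 := by
    intro T
    have h1 : N T = (((allLen s).toFinset).filter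
        (fun y => BadY g h e (tab T.1, tab T.2) j y)).card := by
      show ((allLen s).filter (fun y => BadY g h e (tab T.1, tab T.2) j y)).length = _
      rw [← List.toFinset_card_of_nodup ((nodup_allLen s).filter _)]
      congr 1
      ext y
      simp
    rw [h1, Finset.card_filter]
    apply Finset.sum_le_sum
    intro y _
    split_ifs with hb
    · obtain ⟨i, hi, hb⟩ := hb
      rw [List.mem_range] at hi
      have h2 := Finset.single_le_sum (f := fun i => if Bad g h (tab T.1, tab T.2) j (vl i) y then 1 else 0)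
        (fun i _ => Nat.zero_le _) (Finset.mem_range.2 hi)
      simp only [if_pos hb] at h2
      exact h2
    · exact Nat.zero_le _
  have hsum : (∑ T : Par F, N T) * 2 ^ s ≤
      2 ^ s * (2 ^ (e * (j + 2)) * (2 * (2 ^ (h * (j + 2))) ^ 2 * q ^ 4)) := by
    have h1 : ∑ T : Par F, N T ≤ ∑ y ∈ (allLen s).toFinset, ∑ i ∈ Finset.range (2 ^ (e * (j + 2))),
        (Finset.univ.filter (fun T : Par F => Bad g h (tab T.1, tab T.2) j (vl i) y)).card := by
      refine (Finset.sum_le_sum (fun T _ => hN T)).trans ?_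
      rw [Finset.sum_comm]
      apply Finset.sum_le_sum
      intro y _
      rw [Finset.sum_comm]
      apply Finset.sum_le_sum
      intro i _
      rw [Finset.card_filter]
    have h2 : (∑ y ∈ (allLen s).toFinset, ∑ i ∈ Finset.range (2 ^ (e * (j + 2))),
        (Finset.univ.filter (fun T : Par F => Bad g h (tab T.1, tab T.2) j (vl i) y)).card) * 2 ^ s ≤
        ∑ y ∈ (allLen s).toFinset, ∑ i ∈ Finset.range (2 ^ (e * (j + 2))),
          (2 * (2 ^ (h * (j + 2))) ^ 2 * q ^ 4) := by
      rw [Finset.sum_mul]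
      apply Finset.sum_le_sum
      intro y hy
      rw [Finset.sum_mul]
      apply Finset.sum_le_sum
      intro i _
      exact hfb _ y (List.mem_toFinset.1 hy)
    have h3 : ∑ y ∈ (allLen s).toFinset, ∑ i ∈ Finset.range (2 ^ (e * (j + 2))),
          (2 * (2 ^ (h * (j + 2))) ^ 2 * q ^ 4) =
        2 ^ s * (2 ^ (e * (j + 2)) * (2 * (2 ^ (h * (j + 2))) ^ 2 * q ^ 4)) := by
      simp only [Finset.sum_const, card_allLen, Finset.card_range, smul_eq_mul]
    calc (∑ T : Par F, N T) * 2 ^ s ≤ _ := Nat.mul_le_mul_right _ h1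
      _ ≤ _ := h2
      _ = _ := h3
  have hsum2 : ∑ T : Par F, N T ≤ 2 ^ (e * (j + 2)) * (2 * (2 ^ (h * (j + 2))) ^ 2 * q ^ 4) := by
    rw [mul_comm] at hsum
    exact Nat.le_of_mul_le_mul_left hsum (by positivity)
  by_contra hno
  push Not at hno
  let Ss : Finset (Par F) := ((Finset.univ.erase 0) ×ˢ Finset.univ) ×ˢ ((Finset.univ.erase 0) ×ˢ Finset.univ)
  have hSs : Ss.card = ((q - 1) * q) * ((q - 1) * q) := by
    simp only [Ss, Finset.card_product, Finset.card_erase_of_mem (Finset.mem_univ _),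
      Finset.card_univ]
    rfl
  have hInj : ∀ t : F × F, t.1 ≠ 0 → Inj (tab t) j := by
    intro t ht p hp
    refine ⟨?_, ?_⟩
    · rw [htab t p hp]
      exact (mem_allLen _ _).1 (hem _)
    · intro p' hp' he
      rw [htab t p hp, htab t p' hp'] at he
      have h1 := heminj he
      unfold ap at h1
      have h2 : t.1 * inv p = t.1 * inv p' := add_right_cancel h1
      have h3 := mul_left_cancel₀ ht h2
      rw [← hinv p hp, ← hinv p' hp', h3]
  have hbadN : ∀ T ∈ Ss, 2 ^ s ≤ 8 * N T := by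
    intro T hT
    simp only [Ss, Finset.mem_product, Finset.mem_erase] at hT
    have h1 := hno (tab T.1, tab T.2)
    by_contra hlt
    apply h1
    refine ⟨hInj _ hT.1.1.1, hInj _ hT.2.1.1, ?_⟩
    rw [not_le] at hlt
    exact hlt.le
  have h4 : Ss.card * 2 ^ s ≤ 8 * ∑ T : Par F, N T := by
    calc Ss.card * 2 ^ s = ∑ T ∈ Ss, 2 ^ s := by rw [Finset.sum_const, smul_eq_mul]
      _ ≤ ∑ T ∈ Ss, 8 * N T := Finset.sum_le_sum hbadN
      _ ≤ ∑ T : Par F, 8 * N T := Finset.sum_le_sum_of_subset (Finset.subset_univ _)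
      _ = 8 * ∑ T : Par F, N T := by rw [Finset.mul_sum]
  have hq2 : 2 ≤ q := by
    rw [hcard]
    calc 2 = 2 ^ 1 := rfl
      _ ≤ 2 ^ (2 * 2 ^ j) := Nat.pow_le_pow_right (by norm_num) (by omega)
  have h5 : q ^ 4 ≤ 4 * Ss.card := by
    rw [hSs]
    have h6 : q ≤ 2 * (q - 1) := by omega
    calc q ^ 4 = (q * q) * (q * q) := by ring
      _ ≤ ((2 * (q - 1)) * q) * ((2 * (q - 1)) * q) := by gcongr
      _ = 4 * (((q - 1) * q) * ((q - 1) * q)) := by ring
  have h7 : q ^ 4 * 2 ^ s ≤ q ^ 4 * (64 * 2 ^ (e * (j + 2)) * (2 ^ (h * (j + 2))) ^ 2) := by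
    calc q ^ 4 * 2 ^ s ≤ (4 * Ss.card) * 2 ^ s := Nat.mul_le_mul_right _ h5
      _ = 4 * (Ss.card * 2 ^ s) := by ring
      _ ≤ 4 * (8 * ∑ T : Par F, N T) := Nat.mul_le_mul_left _ h4
      _ ≤ 4 * (8 * (2 ^ (e * (j + 2)) * (2 * (2 ^ (h * (j + 2))) ^ 2 * q ^ 4))) := by gcongr
      _ = _ := by ring
  have h8 := Nat.le_of_mul_le_mul_left h7 (by positivity)
  omega

end Pool.Agent.H570R2.SP
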