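import Mathlib
import Pool.Agent.Helper760.Profile
import Pool.Agent.H570R2.SP.Defs
import Pool.Agent.H570R2.SP.Comb
import Pool.Agent.H570R2.SP.Exist

set_option autoImplicit false

namespace Pool.Agent.H570R2.SP

open Encodable
open Pool.Agent.Helper760.Kolm

/-! ### Computability of `List.map` -/

theorem computable_list_map {α β σ : Type} [Primcodable α] [Primcodable β] [Primcodable σ]
    {f : α → List β} {g : α → β → σ} (hf : Computable f) (hg : Computable₂ g) :
    Computable (fun a => (f a).map (g a)) := by
  have hstep : Computable₂ (fun (a : α) (x : ℕ × List σ) =>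
      x.2 ++ Option.casesOn (motive := fun _ => List σ) ((f a)[x.1]?) [] (fun b => [g a b])) := by
    refine Computable₂.comp (f := fun (l l' : List σ) => l ++ l') Primrec.list_append.to_comp
      (Computable.snd.comp Computable.snd) ?_
    refine Computable.option_casesOn ?_ (Computable.const []) ?_
    · exact Computable₂.comp (f := fun (l : List β) (n : ℕ) => l[n]?)
        Primrec.list_getElem?.to_comp (hf.comp Computable.fst) (Computable.fst.comp Computable.snd)
    · have h1 : Computable (fun x : (α × (ℕ × List σ)) × β => g x.1.1 x.2) :=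
        hg.comp (Computable.fst.comp Computable.fst) Computable.snd
      exact Computable₂.comp (f := fun (a : σ) (l : List σ) => a :: l) Primrec.list_cons.to_comp
        h1 (Computable.const [])
  have hlen : Computable (fun a => (f a).length) := Primrec.list_length.to_comp.comp hf
  have h := Computable.nat_rec hlen (Computable.const ([] : List σ)) hstep
  refine h.of_eq ?_
  intro a
  have key : ∀ n, n ≤ (f a).length → (Nat.rec ([] : List σ) (fun y IH =>
      (y, IH).2 ++ Option.casesOn (motive := fun _ => List σ) ((f a)[(y, IH).1]?) []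
        (fun b => [g a b])) n : List σ) = ((f a).take n).map (g a) := by
    intro n
    induction n with
    | zero => intro _; simp
    | succ n ih =>
      intro hn
      have hlt : n < (f a).length := by omega
      have h1 := ih (by omega)
      simp only at h1 ⊢
      rw [h1, List.take_add_one, List.getElem?_eq_getElem hlt]
      simp only [List.map_append, Option.toList_some, List.map_cons, List.map_nil]
  rw [key _ le_rfl, List.take_length]

/-! ### Complexities of tuples -/

theorem exists_prog {U : List Bool →. List Bool} (hU : OptimalDecompressor U) (x : List Bool) :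
    ∃ p : List Bool, x ∈ U p ∧ p.length = plainC U x := by
  have h : {m : ℕ | ∃ p : List Bool, x ∈ U p ∧ p.length = m}.Nonempty := by
    obtain ⟨c, hc⟩ := hU.2 (fun p => Part.some p) Partrec.some
    obtain ⟨q, hq, _⟩ := hc x x (Part.mem_some x)
    exact ⟨q.length, q, hq, rfl⟩
  exact Nat.sInf_mem h

theorem plainC_le {U : List Bool →. List Bool} (x p : List Bool) (h : x ∈ U p) :
    plainC U x ≤ p.length := Nat.sInf_le ⟨p, h, rfl⟩

/-- From the reference complexity to `plainC`. -/
theorem plainC_le_K {α : Type} [Primcodable α] {U : List Bool →. List Bool}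
    (hU : OptimalDecompressor U) (enc : α → List Bool) (henc : Computable enc) :
    ∃ c : ℕ, ∀ w : α, plainC U (enc w) ≤ K w () + c := by
  have hV : Partrec (fun p : List Bool =>
      (M p 0).bind fun n => (Part.ofOption (decode (α := α) n)).map enc) := by
    refine Partrec.bind ?_ ?_
    · exact partrec_M.comp Computable.id (Computable.const 0)
    · refine Partrec.map ?_ (henc.comp Computable.snd).to₂
      exact (Computable.decode.comp Computable.snd).ofOption
  obtain ⟨c, hc⟩ := hU.2 _ hV
  refine ⟨c, fun w => ?_⟩
  obtain ⟨p, hp, hl⟩ := K_spec w ()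
  obtain ⟨q, hq, hql⟩ := hc p (enc w) (by
    simp only [Part.mem_bind_iff]
    refine ⟨encode w, by simpa using hp, ?_⟩
    simp)
  have := plainC_le _ _ hq
  omega

/-- From `plainC` to the reference complexity. -/
theorem K_le_plainC {α : Type} [Primcodable α] {U : List Bool →. List Bool}
    (hU : OptimalDecompressor U) (enc : α → List Bool) (henc : Computable enc)
    (hinj : Function.Injective enc) :
    ∃ c : ℕ, ∀ w : α, K w () ≤ plainC U (enc w) + c := by
  let φ : Unit × List Bool × Unit →. α := fun x =>
    (U x.2.1).bind fun s => Nat.rfindOpt (fun t =>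
      (decode (α := α) t).bind fun w => if enc w = s then some w else none)
  have hφ : Partrec φ := by
    refine Partrec.bind ?_ ?_
    · exact hU.1.comp (Computable.fst.comp Computable.snd)
    · refine Partrec.rfindOpt ?_
      refine Computable.option_bind (Computable.decode.comp Computable.snd) ?_
      have hcond : Computable (fun y : ((((Unit × List Bool × Unit) × List Bool) × ℕ) × α) =>
          decide (enc y.2 = y.1.1.2)) := by
        have h1 : Primrec (fun z : List Bool × List Bool => decide (z.1 = z.2)) :=
          (Primrec.eq (α := List Bool)).decide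
        exact h1.to_comp.comp (Computable.pair (henc.comp Computable.snd)
          (Computable.snd.comp (Computable.fst.comp Computable.fst)))
      refine (Computable.cond hcond (Computable.option_some.comp Computable.snd)
        (Computable.const none)).to₂.of_eq ?_
      rintro ⟨y, w⟩
      by_cases h : enc w = y.1.2 <;> simp [h]
  obtain ⟨c, hc⟩ := K_param φ hφ
  refine ⟨c, fun w => ?_⟩
  obtain ⟨p, hp, hl⟩ := exists_prog hU (enc w)
  have h := hc () p () w (by
    simp only [φ, Part.mem_bind_iff]
    refine ⟨enc w, hp, ?_⟩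
    have hex : ∃ n a, a ∈ ((decode (α := α) n).bind fun w' =>
        if enc w' = enc w then some w' else none : Option α) :=
      ⟨encode w, w, by simp⟩
    obtain ⟨a, ha⟩ := Part.dom_iff_mem.1 (Nat.rfindOpt_dom.2 hex)
    obtain ⟨n, hn⟩ := Nat.rfindOpt_spec ha
    have hn' : ((decode (α := α) n).bind fun w' =>
        if enc w' = enc w then some w' else none) = some a := hn
    simp only [Option.bind_eq_some_iff] at hn'
    obtain ⟨w', _, hw'⟩ := hn'
    split_ifs at hw' with heq
    cases hw'
    obtain rfl : a = w := hinj heq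
    exact ha)
  simp only [size_encode_unit] at h
  omega

theorem K_list_le : ∃ c : ℕ, ∀ Z : List (List Bool),
    K Z () ≤ 3 * (Z.map List.length).sum + c * (Z.length + 1) := by
  obtain ⟨c1, h1⟩ := K_param (γ := Unit) (α := List Bool) (β := Unit)
    (fun x => Part.some x.2.1) (Computable.fst.comp Computable.snd).partrec
  have hs : ∀ s : List Bool, K s () ≤ s.length + c1 := by
    intro s
    have := h1 () s () s (Part.mem_some s)
    simp only [size_encode_unit] at this
    omega
  obtain ⟨c2, h2⟩ := K_chain0 (α := List Bool) (β := List (List Bool))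
  obtain ⟨c3, h3⟩ := K_comp (fun (Z : List (List Bool)) (s : List Bool) => s :: Z)
    (Primrec.list_cons.comp Primrec.snd Primrec.fst).to_comp.to₂ (fun _ : List Bool => ())
    (Computable.const ())
  refine ⟨K ([] : List (List Bool)) () + 3 * c1 + c2 + c3, ?_⟩
  intro Z
  induction Z with
  | nil => simp; omega
  | cons s Z ih =>
    have e1 := h2 s (s :: Z)
    have e2 := h3 Z s
    have e3 := hs s
    have e4 := size_le_self (K s ())
    simp only [List.map_cons, List.sum_cons, List.length_cons]
    have e5 : (K ([] : List (List Bool)) () + 3 * c1 + c2 + c3) * (Z.length + 1 + 1) =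
        (K ([] : List (List Bool)) () + 3 * c1 + c2 + c3) * (Z.length + 1) +
        (K ([] : List (List Bool)) () + 3 * c1 + c2 + c3) := by ring
    rw [e5]
    omega

/-! ### Sizes of codes of lists of numbers -/

theorem size_encode_list (m : ℕ) (v : List ℕ) (hv : ∀ a ∈ v, Nat.size a ≤ m) :
    Nat.size (encode v) + 1 ≤ 2 ^ v.length * (m + 1) := by
  induction v with
  | nil => simp
  | cons a v ih =>
    have h1 := ih (fun b hb => hv b (List.mem_cons_of_mem _ hb))
    have h2 := hv a (List.mem_cons_self)
    have h3 : encode (a :: v) = Nat.succ (Nat.pair a (encode v)) := by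
      rw [Encodable.encode_list_cons]
      rfl
    rw [h3]
    have h4 : Nat.size (Nat.succ (Nat.pair a (encode v))) ≤ Nat.size (Nat.pair a (encode v)) + 1 := by
      have := size_add_le (Nat.pair a (encode v)) 1
      have h5 : Nat.size 1 = 1 := by simp
      rw [h5] at this
      by_cases h6 : Nat.size (Nat.pair a (encode v)) = 0
      · have h7 : Nat.pair a (encode v) = 0 := Nat.size_eq_zero.1 h6
        rw [h7]; simp
      · have h7 : max (Nat.size (Nat.pair a (encode v))) 1 = Nat.size (Nat.pair a (encode v)) :=
          max_eq_left (by omega)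
        rw [h7] at this
        exact this
    have h5 := size_pair_le a (encode v)
    have h6 : max (Nat.size a) (Nat.size (encode v)) + 1 ≤ 2 ^ v.length * (m + 1) := by
      have h7 : m + 1 ≤ 2 ^ v.length * (m + 1) := Nat.le_mul_of_pos_left _ (by positivity)
      omega
    rw [List.length_cons, pow_succ]
    have h8 : 2 ^ v.length * 2 * (m + 1) = 2 * (2 ^ v.length * (m + 1)) := by ring
    omega

theorem lin_lt_pow (a b : ℕ) : ∃ j₀, ∀ j, j₀ ≤ j → a * j + b < 2 ^ j := by
  have hsq : ∀ j, 4 ≤ j → j * j ≤ 2 ^ j := by
    intro j hj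
    induction j, hj using Nat.le_induction with
    | base => norm_num
    | succ n hn ih =>
      rw [pow_succ]
      nlinarith
  refine ⟨a + b + 4, ?_⟩
  intro j hj
  have h1 := hsq j (by omega)
  have h2 : a * j + b < j * j := by nlinarith
  omega

theorem countP_eq_sum {l : List Tup} {S : Finset Tup} :
    l.countP (fun z => decide (z ∈ S)) = ∑ z ∈ S, l.count z := by
  classical
  induction l with
  | nil => simp
  | cons a l ih =>
    rw [List.countP_cons, ih]
    simp only [List.count_cons, Finset.sum_add_distrib]
    congr 1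
    simp only [beq_iff_eq]
    rw [Finset.sum_ite_eq S a (fun _ => 1)]
    simp

theorem log_five (j : ℕ) : Nat.log 2 (5 * 2 ^ j) = j + 2 := by
  rw [Nat.log_eq_iff (by left; omega)]
  constructor
  · rw [pow_add]; omega
  · have : 2 ^ (j + 2 + 1) = 8 * 2 ^ j := by ring
    rw [this]
    have := Nat.two_pow_pos j
    omega

/-! ### The main argument -/

section main

variable {U : List Bool →. List Bool} {enc : List (List Bool) → List Bool}
variable {A : ℕ × List ℕ × Tup × List Bool → Tup} {r : ℕ → ℕ}

/-- all outputs of the algorithm -/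
def outs (A : ℕ × List ℕ × Tup × List Bool → Tup) (r : ℕ → ℕ) (x : ℕ × List ℕ × Tup) : List Tup :=
  (allLen (r x.1)).map (fun ρ => A (x.1, x.2.1, x.2.2, ρ))

theorem computable_outs (hA : Computable A) (hr : Computable r) : Computable (outs A r) := by
  unfold outs
  refine computable_list_map ?_ ?_
  · exact primrec_allLen.to_comp.comp (hr.comp Computable.fst)
  · refine hA.comp ?_
    exact Computable.pair (Computable.fst.comp Computable.fst)
      (Computable.pair (Computable.fst.comp (Computable.snd.comp Computable.fst))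
        (Computable.pair (Computable.snd.comp (Computable.snd.comp Computable.fst)) Computable.snd))

theorem length_outs (x : ℕ × List ℕ × Tup) : (outs A r x).length = 2 ^ r x.1 := by
  unfold outs
  rw [List.length_map, length_allLen]

/-- few strings in a block have long lists -/
theorem few_long (L : Tup) (j t : ℕ) (hL : Inj L j) (Lx : List Bool → Finset Tup)
    (hLx : ∀ x, ∀ z ∈ Lx x, K (x :: z) () ≤ 2 * 2 ^ j + t) :
    8 * (((allLen (2 ^ j)).toFinset).filter (fun y => 8 * 2 ^ (t + 1) * 2 ^ (2 ^ j) <
      ∑ r ∈ (allLen (2 ^ j)).toFinset, (Lx (look L (y ++ r))).card)).card < 2 ^ (2 ^ j) := by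
  classical
  set Rs := (allLen (2 ^ j)).toFinset with hRs
  set E := Rs.filter (fun y => 8 * 2 ^ (t + 1) * 2 ^ (2 ^ j) <
      ∑ r ∈ Rs, (Lx (look L (y ++ r))).card) with hE
  have hmemRs : ∀ y, y ∈ Rs ↔ y.length = 2 ^ j := by
    intro y; rw [hRs, List.mem_toFinset, mem_allLen]
  have hyr : ∀ y ∈ Rs, ∀ r ∈ Rs, y ++ r ∈ allLen (2 * 2 ^ j) := by
    intro y hy r hr
    rw [hmemRs] at hy hr
    rw [mem_allLen, List.length_append, hy, hr]; ring
  -- the set of all triples
  let Tr : Finset ((_ : List Bool × List Bool) × Tup) :=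
    (Rs ×ˢ Rs).sigma (fun p => Lx (look L (p.1 ++ p.2)))
  let f : ((_ : List Bool × List Bool) × Tup) → Tup := fun x => look L (x.1.1 ++ x.1.2) :: x.2
  have hcardTr : Tr.card = ∑ y ∈ Rs, ∑ r ∈ Rs, (Lx (look L (y ++ r))).card := by
    simp only [Tr]
    rw [Finset.card_sigma, Finset.sum_product]
  have hinj : Set.InjOn f Tr := by
    rintro ⟨⟨y, r⟩, z⟩ hx ⟨⟨y', r'⟩, z'⟩ hx' he
    simp only [Tr, Finset.coe_sigma, Set.mem_sigma_iff, Finset.mem_coe, Finset.mem_product] at hx hx'
    simp only [f, List.cons.injEq] at he
    have h1 := (hL _ (hyr y hx.1.1 r hx.1.2)).2 _ (hyr y' hx'.1.1 r' hx'.1.2) he.1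
    have h2 : y.length = y'.length := by
      rw [(hmemRs y).1 hx.1.1, (hmemRs y').1 hx'.1.1]
    obtain ⟨h3, h4⟩ := List.append_inj h1 h2
    rw [h3, h4, he.2]
  have hcard : Tr.card < 2 ^ (2 * 2 ^ j + t + 1) := by
    rw [← Finset.card_image_of_injOn hinj]
    apply card_le ()
    intro a ha
    rw [Finset.mem_image] at ha
    obtain ⟨⟨⟨y, r⟩, z⟩, hx, rfl⟩ := ha
    simp only [Tr, Finset.mem_sigma] at hx
    exact hLx _ z hx.2
  have hEsum : E.card * (8 * 2 ^ (t + 1) * 2 ^ (2 ^ j)) ≤ Tr.card := by
    rw [hcardTr]
    calc E.card * (8 * 2 ^ (t + 1) * 2 ^ (2 ^ j)) = ∑ y ∈ E, 8 * 2 ^ (t + 1) * 2 ^ (2 ^ j) := by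
          rw [Finset.sum_const, smul_eq_mul]
      _ ≤ ∑ y ∈ E, ∑ r ∈ Rs, (Lx (look L (y ++ r))).card := by
          apply Finset.sum_le_sum
          intro y hy
          rw [hE, Finset.mem_filter] at hy
          exact hy.2.le
      _ ≤ _ := Finset.sum_le_sum_of_subset (Finset.filter_subset _ _)
  have h9 : (8 * E.card) * (2 ^ (t + 1) * 2 ^ (2 ^ j)) <
      2 ^ (2 ^ j) * (2 ^ (t + 1) * 2 ^ (2 ^ j)) := by
    calc (8 * E.card) * (2 ^ (t + 1) * 2 ^ (2 ^ j)) = E.card * (8 * 2 ^ (t + 1) * 2 ^ (2 ^ j)) := by
          ring
      _ < 2 ^ (2 * 2 ^ j + t + 1) := lt_of_le_of_lt hEsum hcard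
      _ = _ := by ring
  exact Nat.lt_of_mul_lt_mul_right h9

theorem few_simple (s : ℕ) (hs : 1 ≤ s) :
    8 * (((allLen s).toFinset).filter (fun y => K [y] () < s - 1)).card < 4 * 2 ^ s := by
  classical
  have h1 : (((allLen s).toFinset).filter (fun y => K [y] () < s - 1)).card < 2 ^ (s - 1) := by
    have hinj : Set.InjOn (fun y : List Bool => [y])
        (((allLen s).toFinset).filter (fun y => K [y] () < s - 1)) := by
      intro a _ b _ hab
      simpa using hab
    rw [← Finset.card_image_of_injOn hinj]
    apply card_lt ()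
    intro a ha
    rw [Finset.mem_image] at ha
    obtain ⟨y, hy, rfl⟩ := ha
    exact (Finset.mem_filter.1 hy).2
  have h2 : 2 ^ s = 2 * 2 ^ (s - 1) := by
    conv_lhs => rw [show s = (s - 1) + 1 by omega]
    rw [pow_succ]; ring
  omega

end main

end Pool.Agent.H570R2.SP
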