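import Mathlib
import Pool.Agent.H570R2.SP.Main

set_option autoImplicit false

namespace Pool.Agent.H570R2.SP

open Encodable
open Pool.Agent.Helper760.Kolm

theorem totalLen_three {j : ℕ} {x₁ x₂ y : List Bool} (h1 : x₁.length = 2 * 2 ^ j)
    (h2 : x₂.length = 2 * 2 ^ j) (h3 : y.length = 2 ^ j) :
    totalLen ([x₁, x₂] ++ [y]) = 5 * 2 ^ j := by
  unfold totalLen
  simp [h1, h2, h3]
  ring

/-- Consequences of a successful output. -/
theorem close_three {U : List Bool →. List Bool} {enc : List (List Bool) → List Bool} {m : ℕ}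
    {x₁ x₂ y : List Bool} {z : Tup}
    (h : Close m (profile U enc ([x₁, x₂] ++ z)) (profile U enc ([x₁, x₂] ++ [y]))) :
    plainC U (enc [y]) ≤ plainC U (enc z) + m ∧
    plainC U (enc (x₁ :: z)) ≤ plainC U (enc [x₁, y]) + m ∧
    plainC U (enc (x₂ :: z)) ≤ plainC U (enc [x₂, y]) + m := by
  have hlen := h.length_eq
  unfold profile at hlen
  rw [List.length_map, List.length_map, List.length_sublists, List.length_sublists] at hlen
  have hz : z.length = 1 := by
    have := Nat.pow_right_injective (le_refl 2) hlen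
    simp at this
    omega
  obtain ⟨w, rfl⟩ := List.length_eq_one_iff.1 hz
  unfold Close profile at h
  have e1 : ([x₁, x₂] ++ [w]).sublists = [[], [x₁], [x₂], [x₁, x₂], [w], [x₁, w], [x₂, w],
      [x₁, x₂, w]] := by
    simp [List.sublists]
  have e2 : ([x₁, x₂] ++ [y]).sublists = [[], [x₁], [x₂], [x₁, x₂], [y], [x₁, y], [x₂, y],
      [x₁, x₂, y]] := by
    simp [List.sublists]
  rw [e1, e2] at h
  simp only [List.map_cons, List.map_nil, List.forall₂_cons, List.forall₂_nil_right_iff] at h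
  obtain ⟨-, -, -, -, h4, h5, h6, -⟩ := h
  exact ⟨h4.2, h5.1, h6.1⟩

theorem ncard_le_count {A : ℕ × List ℕ × Tup × List Bool → Tup} {r : ℕ → ℕ} (n : ℕ) (v : List ℕ)
    (xs : Tup) (S : Finset Tup) (Q : List Bool → Prop)
    (hQ : ∀ ρ : List Bool, ρ.length = r n → Q ρ → A (n, v, xs, ρ) ∈ S) :
    Set.ncard {ρ : List Bool | ρ.length = r n ∧ Q ρ} ≤ ∑ z ∈ S, (outs A r (n, v, xs)).count z := by
  classical
  rw [← countP_eq_sum]
  have h1 : (outs A r (n, v, xs)).countP (fun z => decide (z ∈ S)) =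
      (((allLen (r n)).filter (fun ρ => decide (A (n, v, xs, ρ) ∈ S))).toFinset).card := by
    unfold outs
    rw [List.countP_map, List.countP_eq_length_filter,
      List.toFinset_card_of_nodup ((nodup_allLen _).filter _)]
    rfl
  rw [h1, ← Set.ncard_coe_finset]
  apply Set.ncard_le_ncard _ (Finset.finite_toSet _)
  rintro ρ ⟨hρ, hq⟩
  rw [Finset.mem_coe, List.mem_toFinset, List.mem_filter]
  exact ⟨(mem_allLen _ _).2 hρ, decide_eq_true (hQ ρ hρ hq)⟩

theorem main {U : List Bool →. List Bool} (hU : OptimalDecompressor U)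
    {enc : List (List Bool) → List Bool} (henc : Computable enc)
    (hinj : Function.Injective enc)
    {A : ℕ × List ℕ × Tup × List Bool → Tup} (hA : Computable A) {r : ℕ → ℕ} (hr : Computable r)
    (c q n₀ : ℕ) :
    ∃ xs ys : Tup, xs.length = 2 ∧ ys.length = 1 ∧ n₀ ≤ totalLen (xs ++ ys) ∧
      Set.ncard {ρ : List Bool | ρ.length = r (totalLen (xs ++ ys)) ∧
        Close (c * Nat.log 2 (totalLen (xs ++ ys)))
        (profile U enc (xs ++ A (totalLen (xs ++ ys), profile U enc (xs ++ ys), xs, ρ)))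
        (profile U enc (xs ++ ys))} * (totalLen (xs ++ ys)) ^ q < 2 ^ r (totalLen (xs ++ ys)) := by
  classical
  by_contra hcon
  push Not at hcon
  obtain ⟨ca, hca⟩ := plainC_le_K hU enc henc
  obtain ⟨cb, hcb⟩ := K_le_plainC hU enc henc hinj
  obtain ⟨cL, hcL⟩ := K_list_le
  -- parameters
  obtain ⟨e, he⟩ : ∃ e : ℕ, e = 768 := ⟨_, rfl⟩
  obtain ⟨h, hh⟩ : ∃ h : ℕ, h = 2 * (c + 3) + 2 * (e + 2 * q) + 6 := ⟨_, rfl⟩
  have hG : Computable (outs A r) := computable_outs hA hr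
  obtain ⟨find, hfind, hfind1, hfind2⟩ := exists_find hG h e
  obtain ⟨c1, hc1⟩ := K_pair_le hfind
  obtain ⟨c2, hc2⟩ := K_heavy_le hG h
  -- large j
  obtain ⟨j1, hj1⟩ := lin_lt_pow 0 n₀
  obtain ⟨j2, hj2⟩ := lin_lt_pow (e + 2 * h) (6 + 2 * e + 4 * h)
  obtain ⟨j4, hj4⟩ := lin_lt_pow 0 (4 * cL + ca)
  obtain ⟨j5, hj5⟩ := lin_lt_pow (h + 3072 + c) (2 * (h + 3072 + c) + c2 + 1 + ca + cb)
  obtain ⟨j, hjj⟩ : ∃ j, j = j1 + j2 + j4 + j5 + (c1 + ca + cb) := ⟨_, rfl⟩
  have hj1' := hj1 j (by omega)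
  have hj2' := hj2 j (by omega)
  have hj4' := hj4 j (by omega)
  have hj5' := hj5 j (by omega)
  have hj3 : c1 + ca + cb ≤ j := by omega
  clear hj1 hj2 hj4 hj5
  set s := 2 ^ j with hs
  have hs1 : 1 ≤ s := Nat.one_le_two_pow
  set n := 5 * s with hn
  have hlog : Nat.log 2 n = j + 2 := log_five j
  set W := 2 ^ r n with hWdef
  have hW : 0 < W := by positivity
  have hlenG : ∀ v u w, (outs A r (5 * 2 ^ j, v, [u, w])).length = W := by
    intro v u w
    rw [length_outs]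
  -- the tables
  have hbig : 64 * 2 ^ (e * (j + 2)) * (2 ^ (h * (j + 2))) ^ 2 < 2 ^ (2 ^ j) := by
    have : 64 * 2 ^ (e * (j + 2)) * (2 ^ (h * (j + 2))) ^ 2 =
        2 ^ (6 + e * (j + 2) + 2 * (h * (j + 2))) := by
      rw [← pow_mul, show (64 : ℕ) = 2 ^ 6 by norm_num, ← pow_add, ← pow_add]
      congr 1; ring
    rw [this]
    apply Nat.pow_lt_pow_right (by norm_num)
    have e1 : 6 + e * (j + 2) + 2 * (h * (j + 2)) = (e + 2 * h) * j + (6 + 2 * e + 4 * h) := by ring
    rw [e1]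
    exact hj2'
  obtain ⟨T, hT⟩ := hfind2 j (exists_good _ h e j W hW hlenG hbig)
  obtain ⟨hI1, hI2, hbadcount⟩ := hfind1 j T hT
  have hK := hc1 j T hT
  set t := (c + 3) * (j + 2) with ht
  set Rs := (allLen s).toFinset with hRs
  have hmemRs : ∀ y, y ∈ Rs ↔ y.length = s := by
    intro y; rw [hRs, List.mem_toFinset, mem_allLen]
  -- all outputs
  let Zs : Finset Tup := (Finset.range (2 ^ (e * (j + 2)))).biUnion
    (fun i => (full (outs A r) j (vl i)).toFinset)
  let Lx : List Bool → Finset Tup := fun x => Zs.filter (fun z =>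
    K (x :: z) () ≤ 2 * s + t ∧ s ≤ K z () + 1 + c * (j + 2) + (ca + cb))
  have hLx : ∀ x, ∀ z ∈ Lx x, K (x :: z) () ≤ 2 * 2 ^ j + t := by
    intro x z hz
    exact (Finset.mem_filter.1 hz).2.1
  -- choice of the block
  set E1 := Rs.filter (fun y => K [y] () < s - 1) with hE1
  set E2 := Rs.filter (fun y => BadY (outs A r) h e T j y) with hE2
  set E3 := Rs.filter (fun y => 8 * 2 ^ (t + 1) * 2 ^ s <
      ∑ r ∈ Rs, (Lx (look T.1 (y ++ r))).card) with hE3
  set E4 := Rs.filter (fun y => 8 * 2 ^ (t + 1) * 2 ^ s <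
      ∑ r ∈ Rs, (Lx (look T.2 (y ++ r))).card) with hE4
  have hc1' : 8 * E1.card < 4 * 2 ^ s := few_simple s hs1
  have hc2' : 8 * E2.card ≤ 2 ^ s := by
    have h1 : E2.card = ((allLen s).filter (fun y => BadY (outs A r) h e T j y)).length := by
      rw [← List.toFinset_card_of_nodup ((nodup_allLen s).filter _)]
      congr 1
      ext y
      simp [hE2, hRs]
    rw [h1]
    exact hbadcount
  have hc3' : 8 * E3.card < 2 ^ s := few_long T.1 j t hI1 Lx hLx
  have hc4' : 8 * E4.card < 2 ^ s := few_long T.2 j t hI2 Lx hLx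
  have hRc : Rs.card = 2 ^ s := card_allLen _
  obtain ⟨y, hyR, hyE⟩ : ∃ y ∈ Rs, y ∉ E1 ∪ E2 ∪ E3 ∪ E4 := by
    by_contra hno
    push Not at hno
    have h1 : Rs ⊆ E1 ∪ E2 ∪ E3 ∪ E4 := fun y hy => hno y hy
    have h2 := Finset.card_le_card h1
    have h3 := Finset.card_union_le (E1 ∪ E2 ∪ E3) E4
    have h4 := Finset.card_union_le (E1 ∪ E2) E3
    have h5 := Finset.card_union_le E1 E2
    omega
  simp only [Finset.mem_union, not_or] at hyE
  obtain ⟨⟨⟨hy1, hy2⟩, hy3⟩, hy4⟩ := hyE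
  have hyK : s - 1 ≤ K [y] () := by
    by_contra hlt
    exact hy1 (Finset.mem_filter.2 ⟨hyR, by omega⟩)
  have hyB : ¬ BadY (outs A r) h e T j y := fun hb => hy2 (Finset.mem_filter.2 ⟨hyR, hb⟩)
  have hyL1 : ∑ r ∈ Rs, (Lx (look T.1 (y ++ r))).card ≤ 8 * 2 ^ (t + 1) * 2 ^ s := by
    by_contra hlt
    exact hy3 (Finset.mem_filter.2 ⟨hyR, by omega⟩)
  have hyL2 : ∑ r ∈ Rs, (Lx (look T.2 (y ++ r))).card ≤ 8 * 2 ^ (t + 1) * 2 ^ s := by
    by_contra hlt
    exact hy4 (Finset.mem_filter.2 ⟨hyR, by omega⟩)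
  have hyl : y.length = 2 ^ j := (hmemRs y).1 hyR
  -- lengths
  have hlook1 : ∀ r ∈ Rs, (look T.1 (y ++ r)).length = 2 * 2 ^ j := by
    intro r hr
    rw [← mem_allLen]
    exact look_mem hI1 ((mem_allLen _ _).2 hyl) ((mem_allLen _ _).2 ((hmemRs r).1 hr))
  have hlook2 : ∀ r ∈ Rs, (look T.2 (y ++ r)).length = 2 * 2 ^ j := by
    intro r hr
    rw [← mem_allLen]
    exact look_mem hI2 ((mem_allLen _ _).2 hyl) ((mem_allLen _ _).2 ((hmemRs r).1 hr))
  -- the profile of a pair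
  let pr : List Bool × List Bool → List ℕ := fun p =>
    profile U enc ([look T.1 (y ++ p.1), look T.2 (y ++ p.2)] ++ [y])
  have htot : ∀ p ∈ Rs ×ˢ Rs, totalLen ([look T.1 (y ++ p.1), look T.2 (y ++ p.2)] ++ [y]) = n := by
    intro p hp
    rw [Finset.mem_product] at hp
    exact totalLen_three (hlook1 _ hp.1) (hlook2 _ hp.2) hyl
  have hpr : ∀ p ∈ Rs ×ˢ Rs, encode (pr p) < 2 ^ (e * (j + 2)) := by
    intro p hp
    have h1 : ∀ a ∈ pr p, Nat.size a ≤ j + 5 := by
      intro a ha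
      simp only [pr, profile, List.mem_map, List.mem_sublists] at ha
      obtain ⟨l, hl, rfl⟩ := ha
      rw [Nat.size_le]
      have h2 := hca l
      have h3 := hcL l
      have h4 : (l.map List.length).sum ≤ n := by
        rw [← htot p hp]
        unfold totalLen
        exact (hl.map List.length).sum_le_sum (fun _ _ => Nat.zero_le _)
      have h5 : l.length ≤ 3 := by
        have := hl.length_le
        simpa using this
      have h6 : cL * (l.length + 1) ≤ cL * 4 := Nat.mul_le_mul_left _ (by omega)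
      have h7 : 2 ^ (j + 5) = 32 * s := by rw [pow_add, hs]; ring
      rw [h7]
      omega
    have h2 := size_encode_list (j + 5) (pr p) h1
    have h3 : (pr p).length = 8 := by
      simp [pr, profile, List.length_sublists]
    rw [h3] at h2
    rw [← Nat.size_le, he]
    omega
  have hpigeon : ∃ i ∈ Finset.range (2 ^ (e * (j + 2))), 2 ^ s * 2 ^ s ≤
      2 ^ (e * (j + 2)) * ((Rs ×ˢ Rs).filter (fun p => encode (pr p) = i)).card := by
    by_contra hno
    push Not at hno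
    have h1 : (Rs ×ˢ Rs).card = ∑ i ∈ Finset.range (2 ^ (e * (j + 2))),
        ((Rs ×ˢ Rs).filter (fun p => encode (pr p) = i)).card :=
      Finset.card_eq_sum_card_fiberwise (fun p hp => Finset.mem_coe.2 (Finset.mem_range.2 (hpr p hp)))
    have h2 : ∑ i ∈ Finset.range (2 ^ (e * (j + 2))),
        2 ^ (e * (j + 2)) * ((Rs ×ˢ Rs).filter (fun p => encode (pr p) = i)).card <
        ∑ i ∈ Finset.range (2 ^ (e * (j + 2))), 2 ^ s * 2 ^ s := by
      apply Finset.sum_lt_sum_of_nonempty _ hno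
      rw [Finset.nonempty_range_iff]
      positivity
    rw [← Finset.mul_sum, ← h1, Finset.card_product, hRc, Finset.sum_const, Finset.card_range,
      smul_eq_mul] at h2
    exact lt_irrefl _ h2
  obtain ⟨i, hi, hpig⟩ := hpigeon
  set P := (Rs ×ˢ Rs).filter (fun p => encode (pr p) = i) with hP
  have hPpr : ∀ p ∈ P, pr p = vl i := by
    intro p hp
    have h1 := (Finset.mem_filter.1 hp).2
    unfold vl
    rw [← h1, Denumerable.ofNat_encode]
  -- outputs
  let cc : Tup → List Bool → List Bool → ℕ := fun z r₁ r₂ =>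
    (outs A r (5 * 2 ^ j, vl i, [look T.1 (y ++ r₁), look T.2 (y ++ r₂)])).count z
  have hccW : ∀ z r₁ r₂, cc z r₁ r₂ ≤ W := by
    intro z r₁ r₂
    have h1 := hlenG (vl i) (look T.1 (y ++ r₁)) (look T.2 (y ++ r₂))
    rw [← h1]
    exact List.count_le_length
  -- success for each pair
  have hsucc : ∀ p ∈ P, W ≤ 2 ^ (2 * q * (j + 2)) *
      ∑ z ∈ Lx (look T.1 (y ++ p.1)) ∩ Lx (look T.2 (y ++ p.2)), cc z p.1 p.2 := by
    intro p hp
    have hpR := (Finset.mem_filter.1 hp).1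
    have hpR' := Finset.mem_product.1 hpR
    have hv : profile U enc ([look T.1 (y ++ p.1), look T.2 (y ++ p.2)] ++ [y]) = vl i := hPpr p hp
    set x₁ := look T.1 (y ++ p.1) with hx₁
    set x₂ := look T.2 (y ++ p.2) with hx₂
    have hx₁l : x₁.length = 2 * 2 ^ j := hlook1 _ hpR'.1
    have hx₂l : x₂.length = 2 * 2 ^ j := hlook2 _ hpR'.2
    have h1 := hcon [x₁, x₂] [y] rfl rfl (by rw [htot p hpR]; simp at hj1'; omega)
    rw [htot p hpR, hlog, hv] at h1
    -- valid outputs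
    have hvalid : ∀ ρ : List Bool, ρ.length = r n →
        Close (c * (j + 2)) (profile U enc ([x₁, x₂] ++ A (n, vl i, [x₁, x₂], ρ))) (vl i) →
        A (n, vl i, [x₁, x₂], ρ) ∈ Lx x₁ ∩ Lx x₂ := by
      intro ρ hρ hcl
      rw [← hv] at hcl
      rw [hv] at hcl
      have hcl' := hcl
      rw [← hv] at hcl'
      set z := A (n, vl i, [x₁, x₂], ρ) with hz
      have hz' : Close (c * (j + 2)) (profile U enc ([x₁, x₂] ++ z))
          (profile U enc ([x₁, x₂] ++ [y])) := by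
        rw [hv]; exact hcl
      obtain ⟨g1, g2, g3⟩ := close_three hz'
      have k1 := hcb (x₁ :: z)
      have k2 := hcb (x₂ :: z)
      have k3 := hca [x₁, y]
      have k4 := hca [x₂, y]
      have k5 := hcb [y]
      have k6 := hca z
      have k7 : K [x₁, y] () ≤ 2 * 2 ^ j + 2 * Nat.size j + c1 :=
        (hK y p.1 hyl ((hmemRs _).1 hpR'.1)).1
      have k8 : K [x₂, y] () ≤ 2 * 2 ^ j + 2 * Nat.size j + c1 :=
        (hK y p.2 hyl ((hmemRs _).1 hpR'.2)).2
      have k9 := size_le_self j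
      have ht' : t = c * (j + 2) + 3 * (j + 2) := by rw [ht]; ring
      have hzZ : z ∈ Zs := by
        simp only [Zs, Finset.mem_biUnion]
        refine ⟨i, hi, ?_⟩
        rw [List.mem_toFinset]
        unfold full
        simp only [List.mem_flatMap]
        refine ⟨x₁, (mem_allLen _ _).2 hx₁l, x₂, (mem_allLen _ _).2 hx₂l, ?_⟩
        unfold outs
        rw [List.mem_map]
        exact ⟨ρ, (mem_allLen _ _).2 hρ, rfl⟩
      rw [Finset.mem_inter]
      constructor
      · refine Finset.mem_filter.2 ⟨hzZ, ?_, ?_⟩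
        · omega
        · omega
      · refine Finset.mem_filter.2 ⟨hzZ, ?_, ?_⟩
        · omega
        · omega
    have h2 : Set.ncard {ρ : List Bool | ρ.length = r n ∧
        Close (c * (j + 2)) (profile U enc ([x₁, x₂] ++ A (n, vl i, [x₁, x₂], ρ))) (vl i)} ≤
        ∑ z ∈ Lx x₁ ∩ Lx x₂, cc z p.1 p.2 := by
      exact ncard_le_count n (vl i) [x₁, x₂] _ _ hvalid
    have h3 : n ^ q ≤ 2 ^ (2 * q * (j + 2)) := by
      have h4 : n ≤ 2 ^ (2 * (j + 2)) := by
        have : 2 ^ (2 * (j + 2)) = 16 * (s * s) := by rw [hs]; ring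
        rw [this, hn]
        nlinarith
      calc n ^ q ≤ (2 ^ (2 * (j + 2))) ^ q := Nat.pow_le_pow_left h4 q
        _ = _ := by rw [← pow_mul]; congr 1; ring
    calc W ≤ _ := h1
      _ ≤ (∑ z ∈ Lx x₁ ∩ Lx x₂, cc z p.1 p.2) * 2 ^ (2 * q * (j + 2)) := Nat.mul_le_mul h2 h3
      _ = _ := mul_comm _ _
  -- the combinatorial lemma
  set Kc := 8 * 2 ^ (t + 1) with hKc
  set J := 2 ^ (e * (j + 2)) * 2 ^ (2 * q * (j + 2)) with hJ
  have hgood : 2 ^ s * 2 ^ s * W ≤ J * ∑ p ∈ P,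
      ∑ z ∈ Lx (look T.1 (y ++ p.1)) ∩ Lx (look T.2 (y ++ p.2)), cc z p.1 p.2 := by
    calc 2 ^ s * 2 ^ s * W ≤ (2 ^ (e * (j + 2)) * P.card) * W := Nat.mul_le_mul_right _ hpig
      _ = 2 ^ (e * (j + 2)) * ∑ p ∈ P, W := by rw [Finset.sum_const, smul_eq_mul]; ring
      _ ≤ 2 ^ (e * (j + 2)) * ∑ p ∈ P, 2 ^ (2 * q * (j + 2)) *
        ∑ z ∈ Lx (look T.1 (y ++ p.1)) ∩ Lx (look T.2 (y ++ p.2)), cc z p.1 p.2 :=
          Nat.mul_le_mul_left _ (Finset.sum_le_sum hsucc)
      _ = _ := by rw [← Finset.mul_sum, hJ]; ring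
  obtain ⟨z, ⟨p, hp, hzp⟩, hz⟩ := popular Rs cc W Kc J (2 ^ s)
    (fun r => Lx (look T.1 (y ++ r))) (fun r => Lx (look T.2 (y ++ r))) P
    (Finset.filter_subset _ _) hccW hyL1 hyL2 hRc (by positivity) (by positivity) (by positivity)
    hW hgood
  -- `z` is heavy
  have hcb2 : (blk (outs A r) T j (vl i) y).count z = ∑ r ∈ Rs, ∑ r' ∈ Rs, cc z r r' :=
    count_blk _ _ _ _ _ _
  rw [← hcb2] at hz
  have hpos : 0 < (blk (outs A r) T j (vl i) y).count z := by
    by_contra h0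
    have h1 : (blk (outs A r) T j (vl i) y).count z = 0 := by omega
    rw [h1] at hz
    have : 0 < 2 ^ s * 2 ^ s * W := by positivity
    omega
  have hzb : z ∈ blk (outs A r) T j (vl i) y := List.count_pos_iff.1 hpos
  have hlenb : (blk (outs A r) T j (vl i) y).length = 2 ^ (2 ^ j) * (2 ^ (2 ^ j) * W) :=
    length_blk (hlenG _)
  have hHbig : 2 * (4 * Kc ^ 2 * J ^ 2) < 2 ^ (h * (j + 2)) := by
    have h1 : 2 * (4 * Kc ^ 2 * J ^ 2) =
        2 ^ (11 + 2 * t + 2 * (e * (j + 2)) + 2 * (2 * q * (j + 2))) := by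
      rw [hKc, hJ]
      have : (8 : ℕ) = 2 ^ 3 := by norm_num
      rw [this]
      simp only [mul_pow, ← pow_mul, pow_add]
      ring
    rw [h1]
    apply Nat.pow_lt_pow_right (by norm_num)
    rw [ht, hh]
    have h2 : (2 * (c + 3) + 2 * (e + 2 * q) + 6) * (j + 2) =
        2 * ((c + 3) * (j + 2)) + 2 * (e * (j + 2)) + 2 * (2 * q * (j + 2)) + 6 * (j + 2) := by ring
    rw [h2]
    omega
  have hheavy : Heavy (outs A r) h j (vl i) z := by
    by_contra hnh
    apply hyB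
    refine ⟨i, List.mem_range.2 (Finset.mem_range.1 hi), z, hzb, ?_, hnh⟩
    rw [hlenb]
    have h1 : 2 * (2 ^ (2 ^ j) * (2 ^ (2 ^ j) * W)) ≤
        2 * (4 * Kc ^ 2 * J ^ 2) * (blk (outs A r) T j (vl i) y).count z := by
      calc 2 * (2 ^ (2 ^ j) * (2 ^ (2 ^ j) * W)) = 2 * (2 ^ s * 2 ^ s * W) := by ring
        _ ≤ 2 * (4 * Kc ^ 2 * J ^ 2 * (blk (outs A r) T j (vl i) y).count z) :=
          Nat.mul_le_mul_left _ hz
        _ = _ := by ring
    exact lt_of_le_of_lt h1 (Nat.mul_lt_mul_of_pos_right hHbig hpos)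
  have hfullpos : 0 < (full (outs A r) j (vl i)).length := by
    rw [length_full (hlenG _)]
    positivity
  have hKz := hc2 j (vl i) z hfullpos hheavy
  have hsizei : Nat.size (encode (j, vl i)) ≤ 2 * (e * (j + 2)) := by
    have h1 : encode (j, vl i) = Nat.pair j i := by
      rw [Encodable.encode_prod_val]
      unfold vl
      rw [Denumerable.encode_ofNat]
      rfl
    rw [h1]
    have h2 := size_pair_le j i
    have h3 : Nat.size i ≤ e * (j + 2) := by
      rw [Nat.size_le]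
      exact Finset.mem_range.1 hi
    have h4 := size_le_self j
    have h5 : j ≤ e * (j + 2) := by rw [he]; omega
    have h6 : max (Nat.size j) (Nat.size i) ≤ e * (j + 2) := max_le (by omega) h3
    omega
  have hzL := (Finset.mem_filter.1 (Finset.mem_inter.1 hzp).1).2.2
  have h7 : h * (j + 2) + 2 * (2 * (e * (j + 2))) + c2 + 1 + c * (j + 2) + (ca + cb) =
      (h + 3072 + c) * j + (2 * (h + 3072 + c) + c2 + 1 + ca + cb) := by
    rw [he]; ring
  omega

end Pool.Agent.H570R2.SP
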