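import Mathlib
import Pool.Agent.H570R2.SP.Final

set_option autoImplicit false

namespace Pool.Agent.H570R2.SP

open Encodable
open Pool.Agent.Helper760.Kolm

theorem exists_optimal : ∃ U : List Bool →. List Bool, OptimalDecompressor U := by
  refine ⟨fun p => (M p 0).bind fun n => (Part.ofOption (decode (α := List Bool) n)), ?_, ?_⟩
  · refine Partrec.bind ?_ ?_
    · exact partrec_M.comp Computable.id (Computable.const 0)
    · exact (Computable.decode.comp Computable.snd).ofOption
  · intro V hV
    have hφ : Partrec₂ (fun (p : List Bool) (_ : ℕ) => (V p).map encode) :=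
      (hV.comp Computable.fst).map (Computable.encode.comp Computable.snd).to₂
    obtain ⟨c, hc⟩ := M_opt _ hφ
    refine ⟨c + 1, fun p x hx => ⟨List.replicate c true ++ false :: p, ?_, by simp; omega⟩⟩
    rw [Part.mem_bind_iff]
    refine ⟨encode x, hc p 0 (encode x) ?_, ?_⟩
    · rw [Part.mem_map_iff]
      exact ⟨x, hx, rfl⟩
    · rw [encodek]
      simp

theorem exists_enc : ∃ enc : List (List Bool) → List Bool, Computable enc ∧
    Function.Injective enc := by
  refine ⟨fun l => (List.range (encode l)).map (fun _ => true), ?_, ?_⟩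
  · exact (Primrec.list_map (Primrec.list_range.comp Primrec.encode)
      (Primrec.const true).to₂).to_comp
  · intro a b hab
    have h1 := congrArg List.length hab
    simp only [List.length_map, List.length_range] at h1
    exact encode_injective h1

theorem prob {U : List Bool →. List Bool} (hU : OptimalDecompressor U)
    {enc : List (List Bool) → List Bool} (henc : Computable enc)
    (hinj : Function.Injective enc)
    {A : ℕ × List ℕ × List (List Bool) × List Bool → List (List Bool)} (hA : Computable A)
    {r : ℕ → ℕ} (hr : Computable r) (c q n₀ : ℕ) :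
    ∃ xs ys : List (List Bool), xs.length = 2 ∧ ys.length = 1 ∧ n₀ ≤ totalLen (xs ++ ys) ∧
      1 ≤ totalLen (xs ++ ys) ∧
      successProb U enc A r c xs ys < 1 / (totalLen (xs ++ ys) : ℝ) ^ q := by
  obtain ⟨xs, ys, h1, h2, h3, h4⟩ := main hU henc hinj hA hr c q (max n₀ 1)
  have h5 : 1 ≤ totalLen (xs ++ ys) := le_trans (le_max_right _ _) h3
  refine ⟨xs, ys, h1, h2, le_trans (le_max_left _ _) h3, h5, ?_⟩
  unfold successProb
  have hn : (0 : ℝ) < (totalLen (xs ++ ys) : ℝ) ^ q := by
    have : (0 : ℝ) < (totalLen (xs ++ ys) : ℝ) := by exact_mod_cast h5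
    positivity
  rw [div_lt_div_iff₀ (by positivity) hn, one_mul]
  exact_mod_cast h4

end Pool.Agent.H570R2.SP
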